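import Mathlib
import Pool.Agent.Run7.h4.VS.Defs

/-!
# Linear algebra around a standard pair: commutant, coercivity, traces
-/

open Matrix MeasureTheory
open Run7.h4.YM Run7.h4.VS
open scoped Matrix.Norms.Frobenius

namespace Run7.h630.VS

set_option linter.unusedSectionVars false

noncomputable section

/-- matrices -/
abbrev Mt (N : ℕ) : Type := Matrix (Fin N) (Fin N) ℂ

variable {N : ℕ}

theorem nrm_sq (A : Mt N) : ‖A‖ ^ 2 = ∑ i, ∑ j, ‖A i j‖ ^ 2 := by
  rw [Matrix.frobenius_norm_def, ← Real.sqrt_eq_rpow, Real.sq_sqrt]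
  · simp
  · exact Finset.sum_nonneg fun _ _ => Finset.sum_nonneg fun _ _ => by positivity

/-- the real part of the Hilbert-Schmidt inner product -/
def ip (A B : Mt N) : ℝ := (trace (Aᴴ * B)).re

theorem ip_eq (A B : Mt N) : ip A B = ∑ i, ∑ j, (star (A i j) * B i j).re := by
  unfold ip
  rw [Matrix.trace]
  simp only [Matrix.diag, Matrix.mul_apply, conjTranspose_apply, Complex.re_sum]
  rw [Finset.sum_comm]

theorem nrm_ip (A : Mt N) : ‖A‖ ^ 2 = ip A A := by
  rw [nrm_sq, ip_eq]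
  refine Finset.sum_congr rfl fun i _ => Finset.sum_congr rfl fun j _ => ?_
  rw [RCLike.star_def, ← Complex.normSq_eq_conj_mul_self, Complex.ofReal_re,
    Complex.normSq_eq_norm_sq]

theorem ip_comm (A B : Mt N) : ip A B = ip B A := by
  unfold ip
  have : Bᴴ * A = (Aᴴ * B)ᴴ := by rw [conjTranspose_mul, conjTranspose_conjTranspose]
  rw [this, trace_conjTranspose]
  simp

theorem ip_add_left (A B C : Mt N) : ip (A + B) C = ip A C + ip B C := by
  unfold ip; rw [conjTranspose_add, add_mul, trace_add, Complex.add_re]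

theorem ip_sub_left (A B C : Mt N) : ip (A - B) C = ip A C - ip B C := by
  unfold ip; rw [conjTranspose_sub, sub_mul, trace_sub, Complex.sub_re]

theorem ip_add_right (A B C : Mt N) : ip A (B + C) = ip A B + ip A C := by
  unfold ip; rw [mul_add, trace_add, Complex.add_re]

theorem ip_sub_right (A B C : Mt N) : ip A (B - C) = ip A B - ip A C := by
  unfold ip; rw [mul_sub, trace_sub, Complex.sub_re]

theorem nrm_star (A : Mt N) : ‖Aᴴ‖ = ‖A‖ := Matrix.frobenius_norm_conjTranspose A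

theorem nrm_mul (A B : Mt N) : ‖A * B‖ ≤ ‖A‖ * ‖B‖ := Matrix.frobenius_norm_mul A B

theorem nrm_uni_left (g : SU N) (A : Mt N) : ‖g.1 * A‖ = ‖A‖ := by
  have h : ‖g.1 * A‖ ^ 2 = ‖A‖ ^ 2 := by
    rw [nrm_ip, nrm_ip]
    unfold ip
    rw [conjTranspose_mul, mul_assoc, ← mul_assoc g.1ᴴ, ← star_eq_conjTranspose g.1,
      star_mul_self', one_mul]
  exact (sq_eq_sq₀ (norm_nonneg _) (norm_nonneg _)).mp h

theorem nrm_uni_right (g : SU N) (A : Mt N) : ‖A * g.1‖ = ‖A‖ := by
  rw [← nrm_star, conjTranspose_mul, ← star_eq_conjTranspose g.1, ← coe_inv', nrm_uni_left,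
    nrm_star]

theorem nrm_entry (A : Mt N) (i j : Fin N) : ‖A i j‖ ≤ ‖A‖ := by
  have h : ‖A i j‖ ^ 2 ≤ ‖A‖ ^ 2 := by
    rw [nrm_sq]
    have h1 := Finset.single_le_sum (f := fun i => ∑ j, ‖A i j‖ ^ 2)
      (fun i _ => Finset.sum_nonneg fun j _ => sq_nonneg _) (Finset.mem_univ i)
    have h2 := Finset.single_le_sum (f := fun j => ‖A i j‖ ^ 2)
      (fun j _ => sq_nonneg _) (Finset.mem_univ j)
    exact h2.trans h1
  exact (sq_le_sq₀ (norm_nonneg _) (norm_nonneg _)).mp h

theorem dd_nrm (a b : SU N) : dd a b = ‖a.1 - b.1‖ := dd_eq_norm a b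

theorem dd_bd (a b : SU N) : dd a b ≤ 2 * Real.sqrt N := by
  have h : dd a b ^ 2 ≤ (2 * Real.sqrt N) ^ 2 := by
    rw [dd_sq_tr, mul_pow, Real.sq_sqrt (Nat.cast_nonneg N)]
    have h1 : -(trace (a * b⁻¹).1).re ≤ N := by
      have h2 : ‖trace (a * b⁻¹).1‖ ≤ N := by
        rw [Matrix.trace]
        refine (norm_sum_le _ _).trans ?_
        refine (Finset.sum_le_card_nsmul _ _ 1 fun i _ => entry_le _ i i).trans ?_
        simp
      have h3 := Complex.abs_re_le_norm (trace (a * b⁻¹).1)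
      have h4 := neg_abs_le (trace (a * b⁻¹).1).re
      linarith
    linarith
  exact (sq_le_sq₀ (dd_nonneg _ _) (by positivity)).mp h

/-! ### the commutant -/

section

variable [NeZero N] {ζ : ℂ}

theorem comm_explicit (hζ : IsPrimitiveRoot ζ N) {a c : ℂ} (ha : ‖a‖ = 1) (hc : ‖c‖ = 1)
    (B : Mt N) (e1 : B * clk ζ a = clk ζ a * B) (e2 : B * shf c = shf c * B) :
    ∃ z : ℂ, B = z • (1 : Mt N) := by
  have ha0 : a ≠ 0 := by intro h; rw [h, norm_zero] at ha; exact zero_ne_one ha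
  have hc0 : c ≠ 0 := by intro h; rw [h, norm_zero] at hc; exact zero_ne_one hc
  have hoff : ∀ i j, i ≠ j → B i j = 0 := by
    intro i j hij
    have h := congrFun (congrFun e1 i) j
    unfold clk at h
    rw [Matrix.mul_diagonal, Matrix.diagonal_mul] at h
    have h3 : B i j * (a * (ζ⁻¹ ^ (j : ℕ) - ζ⁻¹ ^ (i : ℕ))) = 0 := by
      rw [mul_sub, mul_sub, h]; ring
    rcases mul_eq_zero.mp h3 with h4 | h4
    · exact h4
    · exfalso
      rcases mul_eq_zero.mp h4 with h5 | h5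
      · exact ha0 h5
      · exact hij (Fin.ext (hζ.inv.pow_inj j.2 i.2 (sub_eq_zero.mp h5))).symm
  have hdiag : ∀ j : Fin N, B (j + 1) (j + 1) = B j j := by
    intro j
    have h := congrFun (congrFun e2 (j + 1)) j
    rw [mul_shf, shf_mul, add_sub_cancel_right, mul_comm] at h
    refine mul_left_cancel₀ (a := (if j + 1 = 0 then c else 1)) ?_ h
    split_ifs
    · exact hc0
    · exact one_ne_zero
  have hall : ∀ (i : ℕ) (h : i < N), B ⟨i, h⟩ ⟨i, h⟩ = B 0 0 := by
    intro i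
    induction i with
    | zero =>
      intro h
      rfl
    | succ i ih =>
      intro h
      have e : (⟨i + 1, h⟩ : Fin N) = ⟨i, by omega⟩ + 1 := by
        apply Fin.ext
        rw [Fin.val_add, Fin.val_one', Nat.add_mod_mod]
        exact (Nat.mod_eq_of_lt h).symm
      rw [e, hdiag, ih]
  refine ⟨B 0 0, ?_⟩
  ext i j
  rw [Matrix.smul_apply, Matrix.one_apply]
  by_cases h : i = j
  · subst h
    rw [if_pos rfl, smul_eq_mul, mul_one]
    exact hall (i : ℕ) i.2
  · rw [if_neg h, smul_zero, hoff i j h]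

variable {k : ℕ} {hζ : IsPrimitiveRoot (om N k) N} {P0 Q0 : SU N}

/-- the commutant of a standard pair consists of scalars -/
theorem std_comm (hS : Std N k hζ P0 Q0) (B : Mt N) (h1 : B * P0.1 = P0.1 * B)
    (h2 : B * Q0.1 = Q0.1 * B) : ∃ z : ℂ, B = z • (1 : Mt N) := by
  obtain ⟨P1, Q1, a, c, hP1, hQ1, ha, hc⟩ := exists_std hζ
  have hrel : (Q1 * P1).1 = om N k • (P1 * Q1).1 := by
    rw [coe_mul', coe_mul', hP1, hQ1]
    exact clk_shf hζ.pow_eq_one a c
  obtain ⟨g, hg1, hg2⟩ := hS.uni P1 Q1 hrel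
  have e1 : P1.1 = g.1 * P0.1 * star g.1 := by rw [hg1, coe_mul', coe_mul', coe_inv']
  have e2 : Q1.1 = g.1 * Q0.1 * star g.1 := by rw [hg2, coe_mul', coe_mul', coe_inv']
  have hg := star_mul_self' g
  have hg' := mul_star_self' g
  have f1 : (g.1 * B * star g.1) * P1.1 = P1.1 * (g.1 * B * star g.1) := by
    rw [e1]
    calc g.1 * B * star g.1 * (g.1 * P0.1 * star g.1)
        = g.1 * B * (star g.1 * g.1) * P0.1 * star g.1 := by simp only [mul_assoc]
      _ = g.1 * (B * P0.1) * star g.1 := by rw [hg, mul_one]; simp only [mul_assoc]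
      _ = g.1 * (P0.1 * B) * star g.1 := by rw [h1]
      _ = g.1 * P0.1 * (star g.1 * g.1) * B * star g.1 := by
          rw [hg, mul_one]; simp only [mul_assoc]
      _ = _ := by simp only [mul_assoc]
  have f2 : (g.1 * B * star g.1) * Q1.1 = Q1.1 * (g.1 * B * star g.1) := by
    rw [e2]
    calc g.1 * B * star g.1 * (g.1 * Q0.1 * star g.1)
        = g.1 * B * (star g.1 * g.1) * Q0.1 * star g.1 := by simp only [mul_assoc]
      _ = g.1 * (B * Q0.1) * star g.1 := by rw [hg, mul_one]; simp only [mul_assoc]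
      _ = g.1 * (Q0.1 * B) * star g.1 := by rw [h2]
      _ = g.1 * Q0.1 * (star g.1 * g.1) * B * star g.1 := by
          rw [hg, mul_one]; simp only [mul_assoc]
      _ = _ := by simp only [mul_assoc]
  rw [hP1] at f1
  rw [hQ1] at f2
  obtain ⟨z, hz⟩ := comm_explicit hζ ha hc _ f1 f2
  refine ⟨z, ?_⟩
  calc B = (star g.1 * g.1) * B * (star g.1 * g.1) := by rw [hg, one_mul, mul_one]
    _ = star g.1 * (g.1 * B * star g.1) * g.1 := by simp only [mul_assoc]
    _ = z • (1 : Mt N) := by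
      rw [hz, mul_smul_comm, mul_one, smul_mul_assoc, hg]

/-- coercivity on matrices with trace zero -/
theorem std_coer (hS : Std N k hζ P0 Q0) : ∃ C : ℝ, 0 < C ∧ ∀ A : Mt N, trace A = 0 →
    ‖A‖ ≤ C * (‖A * P0.1 - P0.1 * A‖ + ‖A * Q0.1 - Q0.1 * A‖) := by
  set Φ : Mt N →ₗ[ℂ] (Mt N × Mt N) × ℂ :=
    (((LinearMap.mulRight ℂ P0.1 - LinearMap.mulLeft ℂ P0.1).prod
      (LinearMap.mulRight ℂ Q0.1 - LinearMap.mulLeft ℂ Q0.1)).prod
      (Matrix.traceLinearMap (Fin N) ℂ ℂ)) with hΦ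
  have hap : ∀ A, Φ A = ((A * P0.1 - P0.1 * A, A * Q0.1 - Q0.1 * A), trace A) := fun A => by
    rw [hΦ]; rfl
  have hker : LinearMap.ker Φ = ⊥ := by
    rw [LinearMap.ker_eq_bot']
    intro A hA
    rw [hap] at hA
    have h1 := congrArg (fun p => p.1.1) hA
    have h2 := congrArg (fun p => p.1.2) hA
    have h3 := congrArg (fun p => p.2) hA
    simp only [Prod.fst_zero, Prod.snd_zero] at h1 h2 h3
    obtain ⟨z, hz⟩ := std_comm hS A (sub_eq_zero.mp h1) (sub_eq_zero.mp h2)
    rw [hz, trace_smul, trace_one, Fintype.card_fin, smul_eq_mul] at h3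
    rcases mul_eq_zero.mp h3 with h4 | h4
    · rw [hz, h4, zero_smul]
    · exact absurd (Nat.cast_eq_zero.mp h4) (NeZero.ne N)
  obtain ⟨K, hK, hanti⟩ := LinearMap.exists_antilipschitzWith Φ hker
  refine ⟨K, by exact_mod_cast hK, fun A hA => ?_⟩
  have h1 := hanti.le_mul_dist A 0
  rw [map_zero, dist_zero_right, dist_zero_right, hap, hA] at h1
  refine h1.trans (mul_le_mul_of_nonneg_left ?_ K.2)
  rw [Prod.norm_def, Prod.norm_def]
  simp only [norm_zero]
  refine max_le (max_le ?_ ?_) (by positivity)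
  · have := norm_nonneg (A * Q0.1 - Q0.1 * A)
    linarith
  · have := norm_nonneg (A * P0.1 - P0.1 * A)
    linarith

end

end

end Run7.h630.VS
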