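import Mathlib
import Pool.Agent.Run7.h630.VS.Lin

/-!
# The scalar part of an element of `SU(N)` close to one
-/

open Matrix MeasureTheory
open Run7.h4.YM Run7.h4.VS
open scoped Matrix.Norms.Frobenius

namespace Run7.h630.VS

set_option linter.unusedSectionVars false

noncomputable section

variable {N : ℕ}

theorem prod_diff {ι : Type*} (s : Finset ι) (a b : ι → ℂ) (ha : ∀ i ∈ s, ‖a i‖ ≤ 1)
    (hb : ∀ i ∈ s, ‖b i‖ ≤ 1) {e : ℝ} (he : ∀ i ∈ s, ‖a i - b i‖ ≤ e) :
    ‖∏ i ∈ s, a i - ∏ i ∈ s, b i‖ ≤ s.card * e := by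
  classical
  induction s using Finset.induction_on with
  | empty => simp
  | insert i s hi ih =>
    have h1 := ih (fun j hj => ha j (Finset.mem_insert_of_mem hj))
      (fun j hj => hb j (Finset.mem_insert_of_mem hj))
      (fun j hj => he j (Finset.mem_insert_of_mem hj))
    rw [Finset.prod_insert hi, Finset.prod_insert hi, Finset.card_insert_of_notMem hi]
    have e1 : a i * ∏ j ∈ s, a j - b i * ∏ j ∈ s, b j =
        a i * (∏ j ∈ s, a j - ∏ j ∈ s, b j) + (a i - b i) * ∏ j ∈ s, b j := by ring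
    rw [e1]
    have hp : ‖∏ j ∈ s, b j‖ ≤ 1 := by
      rw [norm_prod]
      exact Finset.prod_le_one (fun _ _ => norm_nonneg _)
        (fun j hj => hb j (Finset.mem_insert_of_mem hj))
    have hai := ha i (Finset.mem_insert_self i s)
    have hei := he i (Finset.mem_insert_self i s)
    refine (norm_add_le _ _).trans ?_
    rw [norm_mul, norm_mul]
    have h2 : ‖a i‖ * ‖∏ j ∈ s, a j - ∏ j ∈ s, b j‖ ≤ 1 * (s.card * e) :=
      mul_le_mul hai h1 (norm_nonneg _) zero_le_one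
    have h3 : ‖a i - b i‖ * ‖∏ j ∈ s, b j‖ ≤ e * 1 :=
      mul_le_mul hei hp (norm_nonneg _) ((norm_nonneg _).trans hei)
    push_cast
    linarith

theorem det_diff (A B : Mt N) (hA : ∀ i j, ‖A i j‖ ≤ 1) (hB : ∀ i j, ‖B i j‖ ≤ 1) :
    ‖A.det - B.det‖ ≤ (N.factorial * N) * ‖A - B‖ := by
  rw [det_apply, det_apply, ← Finset.sum_sub_distrib]
  refine (norm_sum_le _ _).trans ?_
  refine (Finset.sum_le_card_nsmul _ _ (N * ‖A - B‖) fun σ _ => ?_).trans (le_of_eq ?_)
  · rw [← smul_sub]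
    have h1 : ‖Equiv.Perm.sign σ • (∏ i, A (σ i) i - ∏ i, B (σ i) i)‖ =
        ‖∏ i, A (σ i) i - ∏ i, B (σ i) i‖ := by
      rcases Int.units_eq_one_or (Equiv.Perm.sign σ) with h | h
      · rw [h, one_smul]
      · rw [h, Units.neg_smul, one_smul, norm_neg]
    rw [h1]
    have h2 := prod_diff Finset.univ (fun i => A (σ i) i) (fun i => B (σ i) i)
      (fun i _ => hA _ _) (fun i _ => hB _ _) (e := ‖A - B‖)
      (fun i _ => by
        have := nrm_entry (A - B) (σ i) i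
        rwa [Matrix.sub_apply] at this)
    simpa using h2
  · rw [Finset.card_univ, Fintype.card_perm, Fintype.card_fin, nsmul_eq_mul]
    ring

theorem nrm_smul_one [NeZero N] (z : ℂ) : ‖z • (1 : Mt N)‖ = Real.sqrt N * ‖z‖ := by
  have h : ‖z • (1 : Mt N)‖ ^ 2 = (Real.sqrt N * ‖z‖) ^ 2 := by
    rw [nrm_sq, mul_pow, Real.sq_sqrt (Nat.cast_nonneg N)]
    have : ∀ i j : Fin N, ‖(z • (1 : Mt N)) i j‖ ^ 2 = if i = j then ‖z‖ ^ 2 else 0 := by
      intro i j
      rw [Matrix.smul_apply, Matrix.one_apply]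
      split_ifs <;> simp
    simp only [this]
    simp
  exact (sq_eq_sq₀ (norm_nonneg _) (by positivity)).mp h

/-- the mean of a matrix -/
def mn (A : Mt N) : ℂ := trace A / N

/-- the part of trace zero -/
def pt (A : Mt N) : Mt N := A - mn A • (1 : Mt N)

theorem tr_pt [NeZero N] (A : Mt N) : trace (pt A) = 0 := by
  unfold pt mn
  have : (N : ℂ) ≠ 0 := Nat.cast_ne_zero.mpr (NeZero.ne N)
  rw [trace_sub, trace_smul, trace_one, Fintype.card_fin, smul_eq_mul]
  field_simp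
  ring

/-- near one, an element of `SU(N)` is controlled by its part of trace zero -/
theorem scal_ctrl (N : ℕ) [NeZero N] : ∃ r C : ℝ, 0 < r ∧ 0 < C ∧ ∀ V : SU N, dd V 1 < r →
    ‖V.1 - 1‖ ≤ C * ‖pt (V.1 - 1)‖ := by
  have hN : (0 : ℝ) < N := Nat.cast_pos.mpr (Nat.pos_of_ne_zero (NeZero.ne N))
  -- the geometric sum
  have hcont : ContinuousAt (fun t : ℂ => ∑ j ∈ Finset.range N, (1 + t) ^ j) 0 := by
    fun_prop
  have h0 : (∑ j ∈ Finset.range N, ((1 : ℂ) + 0) ^ j) = N := by simp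
  obtain ⟨r, hr, hrr⟩ := Metric.continuousAt_iff.mp hcont (1 / 2) (by norm_num)
  refine ⟨r, 1 + 2 * (N.factorial * N) * Real.sqrt N, hr, by positivity,
    fun V hV => ?_⟩
  set t : ℂ := mn (V.1 - 1) with ht
  set X : Mt N := pt (V.1 - 1) with hX
  have hVX : V.1 - 1 = t • (1 : Mt N) + X := by
    rw [hX]; unfold pt; rw [← ht]; abel
  have htV : 1 + t = trace V.1 / N := by
    rw [ht]
    unfold mn
    have : (N : ℂ) ≠ 0 := Nat.cast_ne_zero.mpr (NeZero.ne N)
    rw [trace_sub, trace_one, Fintype.card_fin]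
    field_simp
    ring
  have htr : ‖trace V.1‖ ≤ N := by
    rw [Matrix.trace]
    refine (norm_sum_le _ _).trans ?_
    refine (Finset.sum_le_card_nsmul _ _ 1 fun i _ => entry_le _ i i).trans ?_
    simp
  have h1t : ‖1 + t‖ ≤ 1 := by
    rw [htV, norm_div, Complex.norm_natCast]
    rw [div_le_one hN]
    exact htr
  have htr' : ‖trace (V.1 - 1)‖ ≤ N * ‖V.1 - 1‖ := by
    rw [Matrix.trace]
    refine (norm_sum_le _ _).trans ?_
    refine (Finset.sum_le_card_nsmul _ _ ‖V.1 - 1‖ fun i _ => nrm_entry _ i i).trans ?_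
    simp
  have htn : ‖t‖ ≤ ‖V.1 - 1‖ := by
    rw [ht]
    unfold mn
    rw [norm_div, Complex.norm_natCast, div_le_iff₀ hN]
    linarith
  have htr2 : ‖t‖ < r := by
    rw [dd_nrm] at hV
    exact lt_of_le_of_lt htn hV
  have h2 := hrr (x := t) (by rw [dist_zero_right]; exact htr2)
  rw [h0, dist_eq_norm] at h2
  set S : ℂ := ∑ j ∈ Finset.range N, (1 + t) ^ j with hS
  have hS1 : 1 / 2 ≤ ‖S‖ := by
    have h3 : ‖(N : ℂ)‖ ≤ ‖(N : ℂ) - S‖ + ‖S‖ := by
      have := norm_add_le ((N : ℂ) - S) S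
      rwa [sub_add_cancel] at this
    rw [Complex.norm_natCast, norm_sub_rev] at h3
    have h4 : (1 : ℝ) ≤ N := by exact_mod_cast Nat.one_le_iff_ne_zero.mpr (NeZero.ne N)
    linarith
  have hgeo : t * S = (1 + t) ^ N - 1 := by
    have := mul_geom_sum (1 + t) N
    rw [add_sub_cancel_left] at this
    exact this
  have hdet : ((1 + t) • (1 : Mt N)).det = (1 + t) ^ N := by
    rw [det_smul, det_one, mul_one, Fintype.card_fin]
  have hVd : V.1.det = 1 := ((SU_mem_iff V.1).mp V.2).2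
  have h3 := det_diff ((1 + t) • (1 : Mt N)) V.1 (fun i j => by
    rw [Matrix.smul_apply, Matrix.one_apply]
    split_ifs
    · simpa using h1t
    · simp) (fun i j => entry_le V i j)
  rw [hdet, hVd, ← hgeo, norm_mul] at h3
  have h4 : (1 + t) • (1 : Mt N) - V.1 = -X := by
    have h5 : V.1 = t • (1 : Mt N) + X + 1 := by rw [← hVX]; abel
    rw [h5, add_smul, one_smul]; abel
  rw [h4, norm_neg] at h3
  have h5 : ‖t‖ ≤ 2 * (N.factorial * N) * ‖X‖ := by
    nlinarith [norm_nonneg t]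
  rw [hVX]
  refine (norm_add_le _ _).trans ?_
  rw [nrm_smul_one]
  have h6 := mul_le_mul_of_nonneg_left h5 (Real.sqrt_nonneg (N : ℝ))
  nlinarith [norm_nonneg X]

end

end Run7.h630.VS
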