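import Mathlib
import Pool.Agent.Run7.h630.VS.Tr

/-!
# Linear stability of the commutant
-/

open Matrix MeasureTheory
open Run7.h4.YM Run7.h4.VS
open scoped Matrix.Norms.Frobenius

namespace Run7.h630.VS

set_option linter.unusedSectionVars false

noncomputable section

variable {N : ℕ}

theorem pt_comm (A : Mt N) (P : Mt N) : pt A * P - P * pt A = A * P - P * A := by
  unfold pt
  rw [sub_mul, mul_sub, smul_mul_assoc, one_mul, mul_smul_comm, mul_one]
  abel

theorem sub_one_comm (A : Mt N) (P : Mt N) : (A - 1) * P - P * (A - 1) = A * P - P * A := by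
  rw [sub_mul, mul_sub, one_mul, mul_one]
  abel

/-- A2. -/
theorem tA2 : StA2 := by
  intro N k _ hζ P0 Q0 hS
  obtain ⟨r, C1, hr, hC1, h1⟩ := scal_ctrl N
  obtain ⟨C2, hC2, h2⟩ := std_coer hS
  obtain ⟨ε, hε, h3⟩ := approxB (hζ := hζ) hS.com hr
  refine ⟨C1 * C2 + 2 * Real.sqrt N / ε, by positivity, fun W => ?_⟩
  set f := dd (W * P0) (P0 * W) + dd (W * Q0) (Q0 * W) with hf
  have hf0 : 0 ≤ f := add_nonneg (dd_nonneg _ _) (dd_nonneg _ _)
  rcases lt_or_ge f ε with hlt | hge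
  · have ha := dd_nonneg (W * P0) (P0 * W)
    have hb := dd_nonneg (W * Q0) (Q0 * W)
    obtain ⟨j, hj⟩ := h3 W (by linarith) (by linarith)
    refine ⟨j, ?_⟩
    set V : SU N := (cz hζ j)⁻¹ * W with hV
    have hVd : dd V 1 = dd W (cz hζ j) := by
      have := dd_mul_left W (cz hζ j) (cz hζ j)⁻¹
      rw [inv_mul_cancel] at this
      exact this
    have h4 := h1 V (by rw [hVd]; exact hj)
    have h5 := h2 (pt (V.1 - 1)) (tr_pt _)
    rw [pt_comm, pt_comm, sub_one_comm, sub_one_comm] at h5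
    have hcc : ∀ g : SU N, (cz hζ j)⁻¹ * g = g * (cz hζ j)⁻¹ := by
      intro g
      rw [inv_mul_eq_iff_eq_mul, ← mul_assoc, cz_comm, mul_inv_cancel_right]
    have e1 : ‖V.1 * P0.1 - P0.1 * V.1‖ = dd (W * P0) (P0 * W) := by
      rw [← coe_mul', ← coe_mul', ← dd_nrm, hV, mul_assoc, ← mul_assoc P0, ← hcc P0, mul_assoc,
        dd_mul_left]
    have e2 : ‖V.1 * Q0.1 - Q0.1 * V.1‖ = dd (W * Q0) (Q0 * W) := by
      rw [← coe_mul', ← coe_mul', ← dd_nrm, hV, mul_assoc, ← mul_assoc Q0, ← hcc Q0, mul_assoc,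
        dd_mul_left]
    rw [e1, e2, ← hf] at h5
    rw [← hVd, dd_nrm]
    have h6 : (0 : ℝ) ≤ 2 * Real.sqrt N / ε * f := by positivity
    have h7 : ‖V.1 - 1‖ ≤ C1 * (C2 * f) := h4.trans (mul_le_mul_of_nonneg_left h5 hC1.le)
    rw [add_mul]
    calc ‖V.1 - (1 : SU N).1‖ ≤ C1 * (C2 * f) := h7
      _ ≤ C1 * C2 * f + 2 * Real.sqrt N / ε * f := by nlinarith
  · refine ⟨0, (dd_bd _ _).trans ?_⟩
    have h6 : 2 * Real.sqrt N ≤ 2 * Real.sqrt N / ε * f := by
      rw [div_mul_eq_mul_div, le_div_iff₀ hε]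
      exact mul_le_mul_of_nonneg_left hge (by positivity)
    have h7 : 0 ≤ C1 * C2 * f := by positivity
    rw [add_mul]
    linarith

end

end Run7.h630.VS
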