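import Mathlib
import Pool.Agent.Run7.h630.VS.A2

/-!
# First order optimality of the best conjugation
-/

open Matrix MeasureTheory
open Run7.h4.YM Run7.h4.VS
open scoped Matrix.Norms.Frobenius

namespace Run7.h630.VS

set_option linter.unusedSectionVars false

noncomputable section

variable {N : ℕ}

theorem det_exp_herm {H : Mt N} (hH : H.IsHermitian) (t : ℝ) :
    det (NormedSpace.exp ((Complex.I * t) • H)) = Complex.exp (Complex.I * t * trace H) := by
  obtain ⟨V, hV⟩ : ∃ V : Mt N, V = (hH.eigenvectorUnitary : Mt N) := ⟨_, rfl⟩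
  have hu1 : V * star V = 1 := by
    rw [hV]; exact Matrix.mem_unitaryGroup_iff.1 hH.eigenvectorUnitary.2
  have hu2 : star V * V = 1 := by
    rw [hV]; exact Matrix.mem_unitaryGroup_iff'.1 hH.eigenvectorUnitary.2
  have h1 : H = V * diagonal (fun i => ((hH.eigenvalues i : ℝ) : ℂ)) * star V := by
    have := hH.spectral_theorem
    rw [hV]
    conv_lhs => rw [this]
    simp [Unitary.conjStarAlgAut_apply]
    rfl
  have hinv : V⁻¹ = star V := Matrix.inv_eq_right_inv hu1
  have hun : IsUnit V := by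
    rw [Matrix.isUnit_iff_isUnit_det]
    have := congrArg det hu1
    rw [det_mul, det_one] at this
    exact IsUnit.of_mul_eq_one _ this
  have h2 : (Complex.I * t) • H =
      V * diagonal (fun i => Complex.I * t * (hH.eigenvalues i : ℝ)) * V⁻¹ := by
    rw [hinv]
    conv_lhs => rw [h1]
    rw [← smul_mul_assoc, ← mul_smul_comm, ← diagonal_smul]
    rfl
  have h3 : trace H = ∑ i, ((hH.eigenvalues i : ℝ) : ℂ) := by
    conv_lhs => rw [h1]
    rw [trace_mul_comm, ← mul_assoc, hu2, one_mul, trace_diagonal]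
  have h4 : NormedSpace.exp ((Complex.I * t) • H) =
      V * diagonal (fun i => Complex.exp (Complex.I * t * (hH.eigenvalues i : ℝ))) * V⁻¹ := by
    rw [h2, Matrix.exp_conj V _ hun, Matrix.exp_diagonal]
    congr 3
    funext i
    rw [Pi.coe_exp, Complex.exp_eq_exp_ℂ]
  rw [h4, Matrix.det_conj hun, det_diagonal, h3, Finset.mul_sum, Complex.exp_sum]

/-- exponentials of skew matrices of trace zero -/
theorem exp_su {Y : Mt N} (hY : Yᴴ = -Y) (htr : trace Y = 0) (t : ℝ) :
    NormedSpace.exp (t • Y) ∈ specialUnitaryGroup (Fin N) ℂ := by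
  obtain ⟨H, hH⟩ : ∃ H : Mt N, H = -Complex.I • Y := ⟨_, rfl⟩
  have hHe : H.IsHermitian := by
    unfold Matrix.IsHermitian
    rw [hH, conjTranspose_smul, hY]
    simp
  have hYH : t • Y = (Complex.I * t) • H := by
    rw [hH, smul_smul]
    have : Complex.I * t * -Complex.I = (t : ℂ) := by
      rw [mul_comm (Complex.I) (t : ℂ), mul_assoc, mul_neg, Complex.I_mul_I, neg_neg, mul_one]
    rw [this]
    ext i j
    simp
  have htrH : trace H = 0 := by rw [hH, trace_smul, htr, smul_zero]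
  have hsk : t • Y ∈ skewAdjoint (Mt N) := by
    rw [skewAdjoint.mem_iff, star_eq_conjTranspose, conjTranspose_smul, hY, star_trivial, smul_neg]
  have hun : NormedSpace.exp (t • Y) ∈ unitary (Mt N) :=
    NormedSpace.exp_mem_unitary_of_mem_skewAdjoint hsk
  rw [SU_mem_iff]
  refine ⟨(Unitary.mem_iff.mp hun).2, ?_⟩
  rw [hYH, det_exp_herm hHe t, htrH, mul_zero, Complex.exp_zero]

/-- the real part of the trace as a linear functional -/
def retr (N : ℕ) : Mt N →L[ℝ] ℝ :=
  LinearMap.toContinuousLinearMap (Complex.reLm ∘ₗ (Matrix.traceLinearMap (Fin N) ℝ ℂ))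

theorem retr_apply (A : Mt N) : retr N A = (trace A).re := rfl

theorem deriv_conj (K P R : Mt N) : HasDerivAt
    (fun t : ℝ => retr N (NormedSpace.exp (t • (-K)) * P * NormedSpace.exp (t • K) * R))
    (retr N ((P * K - K * P) * R)) 0 := by
  have h1 := hasDerivAt_exp_smul_const (𝕂 := ℝ) (-K) (0 : ℝ)
  have h2 := hasDerivAt_exp_smul_const (𝕂 := ℝ) K (0 : ℝ)
  rw [zero_smul, NormedSpace.exp_zero, one_mul] at h1 h2
  have h3 := (((h1.mul_const P).mul h2).mul_const R)
  have h4 := (retr N).hasFDerivAt.comp_hasDerivAt (0 : ℝ) h3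
  refine HasDerivAt.congr_deriv h4 ?_
  congr 2
  simp only [zero_smul, NormedSpace.exp_zero, one_mul, mul_one, neg_mul]
  abel

theorem tr_move (K A B : Mt N) : trace ((A * K - K * A) * B) = trace (K * (B * A - A * B)) := by
  rw [sub_mul, mul_sub, trace_sub, trace_sub]
  congr 1
  · rw [mul_assoc, trace_mul_comm, mul_assoc]
  · rw [mul_assoc]

/-- first order optimality -/
theorem first_order {P Q P0 Q0 : SU N}
    (hmin : ∀ h : SU N, dd P P0 ^ 2 + dd Q Q0 ^ 2 ≤ dd (h⁻¹ * P * h) P0 ^ 2 +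
      dd (h⁻¹ * Q * h) Q0 ^ 2) :
    (P0.1ᴴ * P.1 - P.1 * P0.1ᴴ + (Q0.1ᴴ * Q.1 - Q.1 * Q0.1ᴴ))ᴴ =
      P0.1ᴴ * P.1 - P.1 * P0.1ᴴ + (Q0.1ᴴ * Q.1 - Q.1 * Q0.1ᴴ) := by
  set M : Mt N := P0.1ᴴ * P.1 - P.1 * P0.1ᴴ + (Q0.1ᴴ * Q.1 - Q.1 * Q0.1ᴴ) with hM
  have htrM : trace M = 0 := by
    rw [hM, trace_add, trace_sub, trace_sub, trace_mul_comm, trace_mul_comm Q0.1ᴴ]
    simp
  set K : Mt N := M - Mᴴ with hK
  have hKs : Kᴴ = -K := by
    rw [hK, conjTranspose_sub, conjTranspose_conjTranspose]; abel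
  have hKt : trace K = 0 := by
    rw [hK, trace_sub, trace_conjTranspose, htrM]; simp
  set φ : ℝ → ℝ := fun t =>
    retr N (NormedSpace.exp (t • (-K)) * P.1 * NormedSpace.exp (t • K) * P0.1ᴴ) +
    retr N (NormedSpace.exp (t • (-K)) * Q.1 * NormedSpace.exp (t • K) * Q0.1ᴴ) with hφ
  have hd : HasDerivAt φ (retr N ((P.1 * K - K * P.1) * P0.1ᴴ) +
      retr N ((Q.1 * K - K * Q.1) * Q0.1ᴴ)) 0 :=
    (deriv_conj K P.1 P0.1ᴴ).add (deriv_conj K Q.1 Q0.1ᴴ)
  have hval : ∀ t : ℝ, ∃ h : SU N, φ t = 2 * N - (dd (h⁻¹ * P * h) P0 ^ 2 +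
      dd (h⁻¹ * Q * h) Q0 ^ 2) / 2 := by
    intro t
    refine ⟨⟨NormedSpace.exp (t • K), exp_su hKs hKt t⟩, ?_⟩
    set h : SU N := ⟨NormedSpace.exp (t • K), exp_su hKs hKt t⟩ with hh
    have e1 : (h⁻¹).1 = NormedSpace.exp (t • (-K)) := by
      rw [coe_inv', hh]
      show star (NormedSpace.exp (t • K)) = _
      rw [NormedSpace.star_exp, star_eq_conjTranspose, conjTranspose_smul, hKs, star_trivial]
    rw [dd_sq_tr, dd_sq_tr]
    have e2 : ∀ R S : SU N, (h⁻¹ * R * h * S⁻¹).1 =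
        NormedSpace.exp (t • (-K)) * R.1 * NormedSpace.exp (t • K) * S.1ᴴ := by
      intro R S
      rw [coe_mul', coe_mul', coe_mul', e1, coe_inv', star_eq_conjTranspose]
    rw [e2, e2, hφ]
    simp only [retr_apply]
    ring
  have h0 : φ 0 = 2 * N - (dd P P0 ^ 2 + dd Q Q0 ^ 2) / 2 := by
    rw [hφ]
    simp only [zero_smul, NormedSpace.exp_zero, one_mul, mul_one, retr_apply]
    rw [dd_sq_tr, dd_sq_tr, coe_mul', coe_mul', coe_inv', coe_inv', star_eq_conjTranspose,
      star_eq_conjTranspose]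
    ring
  have hmax : IsLocalMax φ 0 := by
    refine Filter.Eventually.of_forall fun t => ?_
    obtain ⟨h, hh⟩ := hval t
    rw [hh, h0]
    have := hmin h
    linarith
  have hz := hmax.hasDerivAt_eq_zero hd
  rw [retr_apply, retr_apply] at hz
  -- `Re tr (K M) = 0`
  have hKM : (trace (K * M)).re = 0 := by
    have e1 : trace (K * M) = trace ((P.1 * K - K * P.1) * P0.1ᴴ) +
        trace ((Q.1 * K - K * Q.1) * Q0.1ᴴ) := by
      rw [tr_move, tr_move, ← trace_add, ← mul_add]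
    rw [e1, Complex.add_re, hz]
  have hKK : ip K K = 0 := by
    have e1 : ip K K = -(trace (K * M)).re + (trace (K * Mᴴ)).re := by
      unfold ip
      rw [hKs]
      nth_rewrite 2 [hK]
      rw [neg_mul, mul_sub, trace_neg, trace_sub, Complex.neg_re, Complex.sub_re]
      ring
    have e2 : (trace (K * Mᴴ)).re = -(trace (K * M)).re := by
      have : K * Mᴴ = -((M * K)ᴴ) := by
        rw [conjTranspose_mul, hKs, neg_mul, neg_neg]
      rw [this, trace_neg, Complex.neg_re, trace_conjTranspose, trace_mul_comm M K]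
      simp
    rw [e1, e2, hKM]; simp
  have hK0 : K = 0 := by
    have : ‖K‖ ^ 2 = 0 := by rw [nrm_ip, hKK]
    exact norm_eq_zero.mp (pow_eq_zero_iff (two_ne_zero) |>.mp this)
  exact (sub_eq_zero.mp (hK.symm.trans hK0)).symm

end

end Run7.h630.VS
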