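import Mathlib
import Pool.Agent.Run7.h630.VS.Opt

/-!
# Linear stability of the standard pair
-/

open Matrix MeasureTheory
open Run7.h4.YM Run7.h4.VS
open scoped Matrix.Norms.Frobenius

namespace Run7.h630.VS

set_option linter.unusedSectionVars false

noncomputable section

variable {N : ℕ}

/-- conjugation -/
def cj (g : SU N) (A : Mt N) : Mt N := g.1 * A * g.1ᴴ

theorem uu (g : SU N) : g.1ᴴ * g.1 = 1 := star_mul_self' g
theorem uu' (g : SU N) : g.1 * g.1ᴴ = 1 := mul_star_self' g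

theorem cj_sub (g : SU N) (A B : Mt N) : cj g (A - B) = cj g A - cj g B := by
  unfold cj; rw [mul_sub, sub_mul]

theorem cj_add (g : SU N) (A B : Mt N) : cj g (A + B) = cj g A + cj g B := by
  unfold cj; rw [mul_add, add_mul]

theorem cj_star (g : SU N) (A : Mt N) : (cj g A)ᴴ = cj g Aᴴ := by
  unfold cj
  rw [conjTranspose_mul, conjTranspose_mul, conjTranspose_conjTranspose, mul_assoc]

theorem coe_inv'' (g : SU N) : (g⁻¹).1 = g.1ᴴ := rfl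

theorem cj_inv (g : SU N) (A : Mt N) : cj g⁻¹ A = g.1ᴴ * A * g.1 := by
  unfold cj; rw [coe_inv'', conjTranspose_conjTranspose]

theorem cj_nrm (g : SU N) (A : Mt N) : ‖cj g A‖ = ‖A‖ := by
  unfold cj
  rw [← coe_inv'', nrm_uni_right, nrm_uni_left]

theorem cj_mul (g h : SU N) (A : Mt N) : cj g (cj h A) = cj (g * h) A := by
  unfold cj
  rw [coe_mul', conjTranspose_mul]
  simp only [mul_assoc]

theorem cj_ip (g : SU N) (A B : Mt N) : ip (cj g A) B = ip A (cj g⁻¹ B) := by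
  unfold ip
  rw [cj_star, cj_inv]
  unfold cj
  rw [mul_assoc, mul_assoc, trace_mul_comm]
  simp only [mul_assoc]

theorem cj_iso (g : SU N) (A B : Mt N) : ip (cj g A) (cj g B) = ip A B := by
  rw [cj_ip, cj_mul, inv_mul_cancel]
  unfold cj
  rw [coe_one', conjTranspose_one, one_mul, mul_one]

theorem cj_one (A : Mt N) : cj (1 : SU N) A = A := by
  unfold cj
  rw [coe_one', conjTranspose_one, one_mul, mul_one]

variable [NeZero N]

theorem cj_cz {ζ : ℂ} (hζ : IsPrimitiveRoot ζ N) (j : ℕ) (g : SU N) (A : Mt N) :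
    cj (cz hζ j * g) A = cj g A := by
  rw [← cj_mul]
  unfold cj
  rw [cz_val, conjTranspose_smul, conjTranspose_one, smul_mul_assoc, one_mul, mul_smul_comm,
    mul_one, smul_smul]
  have h2 : ‖ζ ^ j‖ = 1 := by rw [norm_pow, hζ.norm'_eq_one (NeZero.ne N), one_pow]
  have h3 := star_mul_of_norm h2
  rw [h3, one_smul]

section

variable {k : ℕ} {hζ : IsPrimitiveRoot (om N k) N} {P0 Q0 : SU N}

theorem std_cz (hS : Std N k hζ P0 Q0) : Q0 * P0 = cz hζ 1 * (P0 * Q0) := by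
  apply Subtype.ext
  rw [hS.rel, coe_mul' (cz hζ 1), cz_val, pow_one, smul_mul_assoc, one_mul]

theorem cj_swap (hS : Std N k hζ P0 Q0) (A : Mt N) : cj Q0 (cj P0 A) = cj P0 (cj Q0 A) := by
  rw [cj_mul, cj_mul, std_cz hS, cj_cz]

/-- the two Laplacians agree -/
theorem koszul (hS : Std N k hζ P0 Q0) (X Y : Mt N) :
    ‖(cj P0⁻¹ X - X) + (cj Q0⁻¹ Y - Y)‖ ^ 2 + ‖(cj Q0 X - X) - (cj P0 Y - Y)‖ ^ 2 =
      ‖cj P0 X - X‖ ^ 2 + ‖cj Q0 X - X‖ ^ 2 + ‖cj P0 Y - Y‖ ^ 2 + ‖cj Q0 Y - Y‖ ^ 2 := by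
  have c1 : ip (cj P0⁻¹ X) (cj Q0⁻¹ Y) = ip (cj Q0 X) (cj P0 Y) := by
    rw [← cj_iso P0, cj_mul P0 P0⁻¹, mul_inv_cancel, cj_one, ← cj_iso Q0, cj_swap hS,
      cj_mul Q0 Q0⁻¹, mul_inv_cancel, cj_one]
  have c2 : ip (cj P0⁻¹ X) Y = ip X (cj P0 Y) := by
    rw [cj_ip, inv_inv]
  have c3 : ip X (cj Q0⁻¹ Y) = ip (cj Q0 X) Y := by
    rw [cj_ip]
  have c4 : ‖cj P0 X - X‖ = ‖cj P0⁻¹ X - X‖ := by
    rw [← cj_nrm P0 (cj P0⁻¹ X - X), cj_sub, cj_mul, mul_inv_cancel, cj_one, norm_sub_rev]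
  have c5 : ‖cj Q0 Y - Y‖ = ‖cj Q0⁻¹ Y - Y‖ := by
    rw [← cj_nrm Q0 (cj Q0⁻¹ Y - Y), cj_sub, cj_mul, mul_inv_cancel, cj_one, norm_sub_rev]
  rw [c4, c5]
  simp only [nrm_ip, ip_add_left, ip_add_right, ip_sub_left, ip_sub_right, c1, c2, c3]
  rw [ip_comm X (cj P0⁻¹ X), ip_comm Y (cj P0⁻¹ X), ip_comm (cj Q0⁻¹ Y) (cj P0⁻¹ X),
    ip_comm (cj Q0⁻¹ Y) X, ip_comm Y X, ip_comm (cj P0 Y) (cj Q0 X), ip_comm (cj P0 Y) X,
    ip_comm Y (cj Q0 X), ip_comm Y (cj Q0⁻¹ Y), ip_comm X (cj Q0 X), ip_comm Y (cj P0 Y), c1, c2, c3]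
  ring

theorem defect (hS : Std N k hζ P0 Q0) (P Q : SU N) {X Y : Mt N} (hP : P.1 = (1 + X) * P0.1)
    (hQ : Q.1 = (1 + Y) * Q0.1) :
    ‖(cj Q0 X - X) - (cj P0 Y - Y)‖ ≤ dd (Q * P) (cz hζ 1 * (P * Q)) + 2 * (‖X‖ * ‖Y‖) := by
  have e0 : om N k • (P0.1 * Q0.1) = Q0.1 * P0.1 := by
    rw [← coe_mul', ← coe_mul', hS.rel]
  have e1 : (Q * P).1 - (cz hζ 1 * (P * Q)).1 =
      ((cj Q0 X - X) - (cj P0 Y - Y) + (Y * cj Q0 X - X * cj P0 Y)) * (Q0 * P0).1 := by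
    rw [coe_mul' (cz hζ 1), cz_val, pow_one, smul_mul_assoc, one_mul, coe_mul', coe_mul', coe_mul',
      hP, hQ]
    have f1 : cj Q0 X * (Q0.1 * P0.1) = Q0.1 * X * P0.1 := by
      unfold cj
      calc Q0.1 * X * Q0.1ᴴ * (Q0.1 * P0.1) = Q0.1 * X * (Q0.1ᴴ * Q0.1) * P0.1 := by
            simp only [mul_assoc]
        _ = _ := by rw [uu, mul_one]
    have f2 : cj P0 Y * (Q0.1 * P0.1) = om N k • (P0.1 * Y * Q0.1) := by
      rw [← e0]
      unfold cj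
      rw [mul_smul_comm]
      congr 1
      calc P0.1 * Y * P0.1ᴴ * (P0.1 * Q0.1) = P0.1 * Y * (P0.1ᴴ * P0.1) * Q0.1 := by
            simp only [mul_assoc]
        _ = _ := by rw [uu, mul_one]
    have f3 : (1 + Y) * Q0.1 * ((1 + X) * P0.1) =
        Q0.1 * P0.1 + Y * (Q0.1 * P0.1) + Q0.1 * X * P0.1 + Y * (Q0.1 * X * P0.1) := by
      noncomm_ring
    have f4 : om N k • ((1 + X) * P0.1 * ((1 + Y) * Q0.1)) =
        Q0.1 * P0.1 + X * (Q0.1 * P0.1) + om N k • (P0.1 * Y * Q0.1) +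
          X * (om N k • (P0.1 * Y * Q0.1)) := by
      rw [← e0, mul_smul_comm, mul_smul_comm, ← smul_add, ← smul_add, ← smul_add]
      congr 1
      noncomm_ring
    rw [f3, f4, add_mul, sub_mul, sub_mul, sub_mul, sub_mul, mul_assoc Y, mul_assoc X, f1, f2]
    abel
  have e2 : dd (Q * P) (cz hζ 1 * (P * Q)) =
      ‖(cj Q0 X - X) - (cj P0 Y - Y) + (Y * cj Q0 X - X * cj P0 Y)‖ := by
    rw [dd_nrm, e1, nrm_uni_right]
  have e3 : ‖Y * cj Q0 X - X * cj P0 Y‖ ≤ 2 * (‖X‖ * ‖Y‖) := by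
    refine (norm_sub_le _ _).trans ?_
    have g1 := nrm_mul Y (cj Q0 X)
    have g2 := nrm_mul X (cj P0 Y)
    rw [cj_nrm] at g1 g2
    nlinarith
  rw [e2]
  have e4 : (cj Q0 X - X) - (cj P0 Y - Y) = ((cj Q0 X - X) - (cj P0 Y - Y) +
      (Y * cj Q0 X - X * cj P0 Y)) - (Y * cj Q0 X - X * cj P0 Y) := by abel
  calc ‖(cj Q0 X - X) - (cj P0 Y - Y)‖ = ‖((cj Q0 X - X) - (cj P0 Y - Y) +
      (Y * cj Q0 X - X * cj P0 Y)) - (Y * cj Q0 X - X * cj P0 Y)‖ := by rw [← e4]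
    _ ≤ _ := (norm_sub_le _ _).trans (by linarith)

theorem skew_err {P P0 : SU N} {X : Mt N} (hP : P.1 = (1 + X) * P0.1) : ‖X + Xᴴ‖ ≤ ‖X‖ * ‖X‖ := by
  have h1 : (1 + X) * (1 + X)ᴴ = 1 := by
    have h2 := uu' P
    rw [hP, conjTranspose_mul] at h2
    calc (1 + X) * (1 + X)ᴴ = (1 + X) * (P0.1 * P0.1ᴴ) * (1 + X)ᴴ := by rw [uu', mul_one]
      _ = (1 + X) * P0.1 * (P0.1ᴴ * (1 + X)ᴴ) := by simp only [mul_assoc]
      _ = 1 := h2
  have h3 : X + Xᴴ = -(X * Xᴴ) := by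
    rw [conjTranspose_add, conjTranspose_one, add_mul, mul_add, mul_add, one_mul, one_mul,
      mul_one] at h1
    have h4 : 1 + (X + Xᴴ + X * Xᴴ) = 1 + 0 := by
      rw [add_zero]
      calc 1 + (X + Xᴴ + X * Xᴴ) = 1 + Xᴴ + (X + X * Xᴴ) := by abel
        _ = 1 := h1
    have h5 := add_left_cancel h4
    exact eq_neg_of_add_eq_zero_left h5
  rw [h3, norm_neg]
  exact (nrm_mul _ _).trans (le_of_eq (by rw [nrm_star]))

theorem bal {P Q P0 Q0 : SU N} {X Y : Mt N} (hP : P.1 = (1 + X) * P0.1)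
    (hQ : Q.1 = (1 + Y) * Q0.1)
    (hmin : ∀ h : SU N, dd P P0 ^ 2 + dd Q Q0 ^ 2 ≤ dd (h⁻¹ * P * h) P0 ^ 2 +
      dd (h⁻¹ * Q * h) Q0 ^ 2) :
    ‖(cj P0⁻¹ X - X) + (cj Q0⁻¹ Y - Y)‖ ≤ ‖X‖ * ‖X‖ + ‖Y‖ * ‖Y‖ := by
  have h1 := first_order hmin
  have hPM : P0.1ᴴ * P.1 - P.1 * P0.1ᴴ = cj P0⁻¹ X - X := by
    rw [hP, cj_inv]
    have e1 : P0.1ᴴ * ((1 + X) * P0.1) = 1 + P0.1ᴴ * X * P0.1 := by
      rw [add_mul, one_mul, mul_add, uu, ← mul_assoc]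
    have e2 : (1 + X) * P0.1 * P0.1ᴴ = 1 + X := by rw [mul_assoc, uu', mul_one]
    rw [e1, e2]; abel
  have hQM : Q0.1ᴴ * Q.1 - Q.1 * Q0.1ᴴ = cj Q0⁻¹ Y - Y := by
    rw [hQ, cj_inv]
    have e1 : Q0.1ᴴ * ((1 + Y) * Q0.1) = 1 + Q0.1ᴴ * Y * Q0.1 := by
      rw [add_mul, one_mul, mul_add, uu, ← mul_assoc]
    have e2 : (1 + Y) * Q0.1 * Q0.1ᴴ = 1 + Y := by rw [mul_assoc, uu', mul_one]
    rw [e1, e2]; abel
  rw [hPM, hQM] at h1
  set M : Mt N := (cj P0⁻¹ X - X) + (cj Q0⁻¹ Y - Y) with hM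
  have h2 : M + Mᴴ = (cj P0⁻¹ (X + Xᴴ) - (X + Xᴴ)) + (cj Q0⁻¹ (Y + Yᴴ) - (Y + Yᴴ)) := by
    rw [hM, conjTranspose_add, conjTranspose_sub, conjTranspose_sub, cj_star, cj_star, cj_add,
      cj_add]
    abel
  have h3 : ‖M + Mᴴ‖ = 2 * ‖M‖ := by
    rw [h1, ← two_smul ℝ M, norm_smul]; simp
  have hx := skew_err hP
  have hy := skew_err hQ
  have h4 : ‖M + Mᴴ‖ ≤ 2 * (‖X‖ * ‖X‖) + 2 * (‖Y‖ * ‖Y‖) := by
    rw [h2]
    refine (norm_add_le _ _).trans ?_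
    have g1 := norm_sub_le (cj P0⁻¹ (X + Xᴴ)) (X + Xᴴ)
    have g2 := norm_sub_le (cj Q0⁻¹ (Y + Yᴴ)) (Y + Yᴴ)
    rw [cj_nrm] at g1 g2
    linarith
  linarith

theorem real_part {C1 C2 x y e m q a1 a2 a3 a4 : ℝ} (hC1 : 0 < C1) (hC2 : 0 < C2) (hx0 : 0 ≤ x)
    (hy0 : 0 ≤ y) (he0 : 0 ≤ e) (hm0 : 0 ≤ m) (hq0 : 0 ≤ q) (b1 : 0 ≤ a1) (b2 : 0 ≤ a2)
    (b3 : 0 ≤ a3) (b4 : 0 ≤ a4) (hb : m ≤ x * x + y * y) (hd : q ≤ e + 2 * (x * y))
    (hk : m ^ 2 + q ^ 2 = a1 ^ 2 + a2 ^ 2 + a3 ^ 2 + a4 ^ 2)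
    (cX : x ≤ C1 * (C2 * (a1 + a2))) (cY : y ≤ C1 * (C2 * (a3 + a4)))
    (hxs : x < 1 / (8 * (C1 * C2 * 4))) (hys : y < 1 / (8 * (C1 * C2 * 4))) :
    x + y ≤ 2 * (C1 * C2 * 4) * e := by
  obtain ⟨K, hK⟩ : ∃ K : ℝ, K = C1 * C2 * 4 := ⟨_, rfl⟩
  rw [← hK] at hxs hys ⊢
  have hK0 : 0 < K := by rw [hK]; positivity
  have h6 : (a1 + a2 + a3 + a4) ^ 2 ≤ 4 * (a1 ^ 2 + a2 ^ 2 + a3 ^ 2 + a4 ^ 2) := by
    have e1 := sq_nonneg (a1 - a2)
    have e2 := sq_nonneg (a1 - a3)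
    have e3 := sq_nonneg (a1 - a4)
    have e4 := sq_nonneg (a2 - a3)
    have e5 := sq_nonneg (a2 - a4)
    have e6 := sq_nonneg (a3 - a4)
    linarith
  have h7 : m ^ 2 + q ^ 2 ≤ (m + q) ^ 2 := by
    have := mul_nonneg hm0 hq0
    linarith
  have hsum : a1 + a2 + a3 + a4 ≤ 2 * (m + q) := by
    have h5 : (a1 + a2 + a3 + a4) ^ 2 ≤ (2 * (m + q)) ^ 2 := by
      rw [mul_pow]
      linarith
    exact (sq_le_sq₀ (by linarith) (by linarith)).mp h5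
  have hxy : x + y ≤ C1 * C2 * (a1 + a2 + a3 + a4) := by
    calc x + y ≤ C1 * (C2 * (a1 + a2)) + C1 * (C2 * (a3 + a4)) := by linarith
      _ = _ := by ring
  have hmq : m + q ≤ e + (x + y) ^ 2 := by linarith
  have hCC : 0 < C1 * C2 := by positivity
  have hfin : x + y ≤ K * (e + (x + y) ^ 2) := by
    have g1 := mul_le_mul_of_nonneg_left hsum hCC.le
    have g2 := mul_le_mul_of_nonneg_left hmq hCC.le
    have g4 : 0 ≤ C1 * C2 * (e + (x + y) ^ 2) := by positivity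
    rw [hK]
    linarith
  have hsmall : K * (x + y) ≤ 1 / 4 := by
    have g1 : K * x ≤ 1 / 8 := by
      have := mul_le_mul_of_nonneg_left hxs.le hK0.le
      calc K * x ≤ K * (1 / (8 * K)) := this
        _ = 1 / 8 := by field_simp
    have g2 : K * y ≤ 1 / 8 := by
      have := mul_le_mul_of_nonneg_left hys.le hK0.le
      calc K * y ≤ K * (1 / (8 * K)) := this
        _ = 1 / 8 := by field_simp
    linarith
  have hs0 : 0 ≤ x + y := by linarith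
  have hlast : K * (x + y) ^ 2 ≤ (x + y) / 4 := by
    have := mul_le_mul_of_nonneg_right hsmall hs0
    calc K * (x + y) ^ 2 = K * (x + y) * (x + y) := by ring
      _ ≤ 1 / 4 * (x + y) := this
      _ = _ := by ring
  have hKe : 0 ≤ K * e := by positivity
  rw [mul_add] at hfin
  linarith

/-- the estimate close to the standard pair -/
theorem loc_est (hS : Std N k hζ P0 Q0) : ∃ ρ C : ℝ, 0 < ρ ∧ 0 < C ∧ ∀ P Q : SU N,
    (∀ h : SU N, dd P P0 ^ 2 + dd Q Q0 ^ 2 ≤ dd (h⁻¹ * P * h) P0 ^ 2 +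
      dd (h⁻¹ * Q * h) Q0 ^ 2) → dd P P0 < ρ → dd Q Q0 < ρ →
    dd P P0 + dd Q Q0 ≤ C * dd (Q * P) (cz hζ 1 * (P * Q)) := by
  obtain ⟨r, C1, hr, hC1, h1⟩ := scal_ctrl N
  obtain ⟨C2, hC2, h2⟩ := std_coer hS
  set K : ℝ := C1 * C2 * 4 with hK
  have hK0 : 0 < K := by positivity
  refine ⟨min r (1 / (8 * K)), 2 * K, by positivity, by positivity, fun P Q hmin hPd hQd => ?_⟩
  set X : Mt N := P.1 * P0.1ᴴ - 1 with hX
  set Y : Mt N := Q.1 * Q0.1ᴴ - 1 with hY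
  have hP : P.1 = (1 + X) * P0.1 := by
    rw [hX, add_sub_cancel, mul_assoc, uu, mul_one]
  have hQ : Q.1 = (1 + Y) * Q0.1 := by
    rw [hY, add_sub_cancel, mul_assoc, uu, mul_one]
  have hXV : X = (P * P0⁻¹).1 - 1 := by rw [hX, coe_mul', coe_inv'']
  have hYV : Y = (Q * Q0⁻¹).1 - 1 := by rw [hY, coe_mul', coe_inv'']
  have hx1 : dd (P * P0⁻¹) 1 = dd P P0 := by
    have := dd_mul_right P P0 P0⁻¹
    rwa [mul_inv_cancel] at this
  have hy1 : dd (Q * Q0⁻¹) 1 = dd Q Q0 := by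
    have := dd_mul_right Q Q0 Q0⁻¹
    rwa [mul_inv_cancel] at this
  have hxn : ‖X‖ = dd P P0 := by rw [← hx1, dd_nrm, hXV]; rfl
  have hyn : ‖Y‖ = dd Q Q0 := by rw [← hy1, dd_nrm, hYV]; rfl
  set x := dd P P0 with hxd
  set y := dd Q Q0 with hyd
  have hx0 : 0 ≤ x := dd_nonneg _ _
  have hy0 : 0 ≤ y := dd_nonneg _ _
  have hxr : x < r := lt_of_lt_of_le hPd (min_le_left _ _)
  have hyr : y < r := lt_of_lt_of_le hQd (min_le_left _ _)
  have hxs : x < 1 / (8 * K) := lt_of_lt_of_le hPd (min_le_right _ _)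
  have hys : y < 1 / (8 * K) := lt_of_lt_of_le hQd (min_le_right _ _)
  have cX := h1 (P * P0⁻¹) (by rw [hx1]; exact hxr)
  have cY := h1 (Q * Q0⁻¹) (by rw [hy1]; exact hyr)
  rw [← hXV] at cX
  rw [← hYV] at cY
  have dX := h2 (pt X) (tr_pt _)
  have dY := h2 (pt Y) (tr_pt _)
  rw [pt_comm, pt_comm] at dX dY
  have hcom : ∀ (R : SU N) (A : Mt N), ‖A * R.1 - R.1 * A‖ = ‖cj R A - A‖ := by
    intro R A
    have : A * R.1 - R.1 * A = (A - cj R A) * R.1 := by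
      unfold cj
      rw [sub_mul, mul_assoc (R.1 * A), uu, mul_one]
    rw [this, nrm_uni_right, norm_sub_rev]
  rw [hcom, hcom] at dX dY
  have hb := bal hP hQ hmin
  have hd := defect hS P Q hP hQ
  have hk := koszul hS X Y
  rw [hxn, hyn] at hb hd
  set e := dd (Q * P) (cz hζ 1 * (P * Q)) with he
  have he0 : 0 ≤ e := dd_nonneg _ _
  set m := ‖(cj P0⁻¹ X - X) + (cj Q0⁻¹ Y - Y)‖ with hm
  set q := ‖(cj Q0 X - X) - (cj P0 Y - Y)‖ with hq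
  rw [hxn] at cX
  rw [hyn] at cY
  have g1 := mul_le_mul_of_nonneg_left dX hC1.le
  have g2 := mul_le_mul_of_nonneg_left dY hC1.le
  exact real_part hC1 hC2 hx0 hy0 he0 (norm_nonneg _) (norm_nonneg _) (norm_nonneg _)
    (norm_nonneg _) (norm_nonneg _) (norm_nonneg _) hb hd hk (cX.trans g1) (cY.trans g2) hxs hys

/-- A1. -/
theorem tA1 : StA1 := by
  intro N k _ hζ P0 Q0 hS
  obtain ⟨ρ, C, hρ, hC, hloc⟩ := loc_est hS
  -- compactness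
  set f : SU N × SU N → ℝ := fun p => dd (p.2 * p.1) (cz hζ 1 * (p.1 * p.2)) with hf
  have hfc : Continuous f := continuous_dd' (continuous_snd.mul continuous_fst)
    (continuous_const.mul (continuous_fst.mul continuous_snd))
  have hρ2 : 0 < ρ / 2 := by positivity
  obtain ⟨δ, hδ, hsm⟩ := compact_small hfc (fun p => dd_nonneg _ _)
    (W := {p : SU N × SU N | ∃ g : SU N, dd (g⁻¹ * p.1 * g) P0 < ρ / 2 ∧
      dd (g⁻¹ * p.2 * g) Q0 < ρ / 2}) (by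
      have : {p : SU N × SU N | ∃ g : SU N, dd (g⁻¹ * p.1 * g) P0 < ρ / 2 ∧
          dd (g⁻¹ * p.2 * g) Q0 < ρ / 2} = ⋃ g : SU N, {p | dd (g⁻¹ * p.1 * g) P0 < ρ / 2 ∧
            dd (g⁻¹ * p.2 * g) Q0 < ρ / 2} := by
        ext s; simp
      rw [this]
      refine isOpen_iUnion fun g => IsOpen.inter ?_ ?_
      · exact isOpen_lt (continuous_dd' ((continuous_const.mul continuous_fst).mul
          continuous_const) continuous_const) continuous_const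
      · exact isOpen_lt (continuous_dd' ((continuous_const.mul continuous_snd).mul
          continuous_const) continuous_const) continuous_const) (by
      rintro ⟨P, Q⟩ hp
      have h1 : Q * P = cz hζ 1 * (P * Q) := dd_eq_iff.mp hp
      have h2 : (Q * P).1 = om N k • (P * Q).1 := by
        rw [h1, coe_mul' (cz hζ 1), cz_val, pow_one, smul_mul_assoc, one_mul]
      obtain ⟨g, hg1, hg2⟩ := hS.uni P Q h2
      refine ⟨g, ?_, ?_⟩
      · show dd (g⁻¹ * P * g) P0 < ρ / 2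
        have : g⁻¹ * P * g = P0 := by rw [hg1]; group
        rw [this, dd_self]; exact hρ2
      · show dd (g⁻¹ * Q * g) Q0 < ρ / 2
        have : g⁻¹ * Q * g = Q0 := by rw [hg2]; group
        rw [this, dd_self]; exact hρ2)
  refine ⟨C + 2 * Real.sqrt N / δ, by positivity, fun P Q => ?_⟩
  set e := dd (Q * P) (cz hζ 1 * (P * Q)) with he
  have he0 : 0 ≤ e := dd_nonneg _ _
  rcases lt_or_ge e δ with hlt | hge
  · obtain ⟨g0, hg1, hg2⟩ := hsm (P, Q) hlt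
    -- the best conjugation
    set F : SU N → ℝ := fun g => dd (g⁻¹ * P * g) P0 ^ 2 + dd (g⁻¹ * Q * g) Q0 ^ 2 with hF
    have hFc : Continuous F := by
      have hc : ∀ R S : SU N, Continuous fun g : SU N => dd (g⁻¹ * R * g) S := fun R S =>
        continuous_dd' ((continuous_inv.mul continuous_const).mul continuous_id) continuous_const
      exact ((hc P P0).pow 2).add ((hc Q Q0).pow 2)
    obtain ⟨g, -, hg⟩ := isCompact_univ.exists_isMinOn (Set.univ_nonempty) hFc.continuousOn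
    have hgm : ∀ h, F g ≤ F h := fun h => hg (Set.mem_univ h)
    refine ⟨g, ?_⟩
    have hFg : F g ≤ F g0 := hgm g0
    have hFg0 : F g0 < ρ ^ 2 := by
      have h1 := dd_nonneg (g0⁻¹ * P * g0) P0
      have h2 := dd_nonneg (g0⁻¹ * Q * g0) Q0
      simp only at hg1 hg2
      have h3 : dd (g0⁻¹ * P * g0) P0 ^ 2 < (ρ / 2) ^ 2 := by
        exact pow_lt_pow_left₀ hg1 h1 two_ne_zero
      have h4 : dd (g0⁻¹ * Q * g0) Q0 ^ 2 < (ρ / 2) ^ 2 := by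
        exact pow_lt_pow_left₀ hg2 h2 two_ne_zero
      show dd (g0⁻¹ * P * g0) P0 ^ 2 + dd (g0⁻¹ * Q * g0) Q0 ^ 2 < ρ ^ 2
      nlinarith
    have h1 := dd_nonneg (g⁻¹ * P * g) P0
    have h2 := dd_nonneg (g⁻¹ * Q * g) Q0
    have hFge : F g = dd (g⁻¹ * P * g) P0 ^ 2 + dd (g⁻¹ * Q * g) Q0 ^ 2 := rfl
    have h3 : dd (g⁻¹ * P * g) P0 < ρ := by
      refine lt_of_pow_lt_pow_left₀ 2 hρ.le ?_
      nlinarith [sq_nonneg (dd (g⁻¹ * Q * g) Q0)]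
    have h4 : dd (g⁻¹ * Q * g) Q0 < ρ := by
      refine lt_of_pow_lt_pow_left₀ 2 hρ.le ?_
      nlinarith [sq_nonneg (dd (g⁻¹ * P * g) P0)]
    have h5 := hloc (g⁻¹ * P * g) (g⁻¹ * Q * g) (fun h => by
      have := hgm (g * h)
      have e1 : (g * h)⁻¹ * P * (g * h) = h⁻¹ * (g⁻¹ * P * g) * h := by group
      have e2 : (g * h)⁻¹ * Q * (g * h) = h⁻¹ * (g⁻¹ * Q * g) * h := by group
      have hFh : F (g * h) = dd ((g * h)⁻¹ * P * (g * h)) P0 ^ 2 +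
        dd ((g * h)⁻¹ * Q * (g * h)) Q0 ^ 2 := rfl
      rw [hFge, hFh, e1, e2] at this
      exact this) h3 h4
    have e3 : dd (g⁻¹ * Q * g * (g⁻¹ * P * g)) (cz hζ 1 * (g⁻¹ * P * g * (g⁻¹ * Q * g))) = e := by
      have e4 : g⁻¹ * Q * g * (g⁻¹ * P * g) = g⁻¹ * (Q * P) * g := by group
      have e5 : cz hζ 1 * (g⁻¹ * P * g * (g⁻¹ * Q * g)) = g⁻¹ * (cz hζ 1 * (P * Q)) * g := by
        have : g⁻¹ * P * g * (g⁻¹ * Q * g) = g⁻¹ * (P * Q) * g := by group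
        rw [this, ← mul_assoc, ← mul_assoc, cz_comm hζ 1 g⁻¹]
        simp only [mul_assoc]
      rw [e4, e5, dd_mul_right, dd_mul_left]
    rw [e3] at h5
    have h6 : 0 ≤ 2 * Real.sqrt N / δ * e := by positivity
    constructor
    · rw [add_mul]; linarith
    · rw [add_mul]; linarith
  · have h6 : 2 * Real.sqrt N ≤ 2 * Real.sqrt N / δ * e := by
      rw [div_mul_eq_mul_div, le_div_iff₀ hδ]
      exact mul_le_mul_of_nonneg_left hge (by positivity)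
    have h7 : 0 ≤ C * e := by positivity
    refine ⟨1, ?_, ?_⟩
    · refine (dd_bd _ _).trans ?_
      rw [add_mul]; linarith
    · refine (dd_bd _ _).trans ?_
      rw [add_mul]; linarith

end

end

end Run7.h630.VS
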