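import Mathlib
import Pool.Agent.Run7.h4.VS.Base

/-!
# Flat fibres
-/

open Matrix MeasureTheory
open Run7.h4.YM Run7.h4.VS

namespace Run7.h630.VS

set_option linter.unusedSectionVars false

noncomputable section

section fibre

variable {G : Type*} [Group G] {l : ℕ} [NeZero l] (V2 V3 : ZMod l → ZMod l → G)

/-- the transport along the first row -/
def row : ℕ → G
  | 0 => 1
  | i + 1 => row i * V2 (1 + i) 1

/-- the transport along a column -/
def col (i : ZMod l) : ℕ → G
  | 0 => 1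
  | j + 1 => col i j * V3 (1 + i) (1 + j)

/-- the transport -/
def tp (i j : ℕ) : G := row V2 i * col V3 (i : ZMod l) j

lemma tp_succ (i j : ℕ) : tp V2 V3 i (j + 1) = tp V2 V3 i j * V3 (1 + i) (1 + j) := by
  show row V2 i * (col V3 i j * V3 (1 + i) (1 + j)) = row V2 i * col V3 i j * V3 (1 + i) (1 + j)
  rw [mul_assoc]

lemma tp_row (i : ℕ) : tp V2 V3 (i + 1) 0 = tp V2 V3 i 0 * V2 (1 + i) 1 := by
  simp [tp, col, row]

lemma tp_zero : tp V2 V3 0 0 = 1 := by simp [tp, col, row]

variable {V2 V3} {w : G}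

/-- flatness -/
def Flat (V2 V3 : ZMod l → ZMod l → G) (w : G) : Prop :=
  ∀ p q : ZMod l, V3 p q * V2 p (q + 1) =
    (if p = 0 ∧ q = 0 then w else 1) * (V2 p q * V3 (p + 1) q)

lemma tp_flat (hF : Flat V2 V3 w) (i j : ℕ)
    (h : ∀ t < j, ¬((1 : ZMod l) + i = 0 ∧ (1 : ZMod l) + t = 0)) :
    tp V2 V3 i j * V2 (1 + i) (1 + j) = tp V2 V3 (i + 1) j := by
  induction j with
  | zero => rw [tp_row]; simp
  | succ j ih =>
    have h1 := ih fun t ht => h t (by omega)
    have h2 := hF (1 + i) (1 + j)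
    rw [if_neg (h j (Nat.lt_succ_self j)), one_mul] at h2
    rw [tp_succ, tp_succ, ← h1]
    push_cast
    rw [mul_assoc, mul_assoc]
    congr 1
    rw [← add_assoc, h2, ← add_assoc]

/-- the gauge transformation which makes a flat configuration standard -/
theorem fibre_flat (hw : ∀ g : G, w * g = g * w) (hF : Flat V2 V3 w) :
    ∃ (g : ZMod l → ZMod l → G) (P Q : G), Q * P = w * (P * Q) ∧
      (∀ p q, V2 p q = g p q * (if p = 0 then P else 1) * (g (p + 1) q)⁻¹) ∧
      (∀ p q, V3 p q = g p q * (if q = 0 then Q else 1) * (g p (q + 1))⁻¹) := by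
  have hl : 0 < l := NeZero.pos l
  obtain ⟨iv, hiv⟩ : ∃ iv : ZMod l → ℕ, iv = fun p => (p - 1).val := ⟨_, rfl⟩
  have hiv1 : ∀ p, (1 : ZMod l) + (iv p : ℕ) = p := fun p => by
    rw [hiv]; simp
  have hivl : ∀ p, iv p < l := fun p => by rw [hiv]; exact ZMod.val_lt _
  have hiv0 : iv 0 = l - 1 := by
    have h1 := hiv1 0
    have h2 : ((1 + iv 0 : ℕ) : ZMod l) = 0 := by push_cast; exact h1
    rw [ZMod.natCast_eq_zero_iff] at h2
    have h3 := hivl 0
    obtain ⟨c, hc⟩ := h2
    have : c = 1 := by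
      rcases Nat.eq_zero_or_pos c with h | h
      · subst h; omega
      · by_contra h4
        have : 2 ≤ c := by omega
        nlinarith
    subst this; omega
  have hivs : ∀ p, p ≠ 0 → iv (p + 1) = iv p + 1 := by
    intro p hp
    have h1 : iv p + 1 < l := by
      by_contra h
      have h2 : iv p + 1 = l := by have := hivl p; omega
      apply hp
      rw [← hiv1 p]
      have : ((1 + iv p : ℕ) : ZMod l) = ((l : ℕ) : ZMod l) := by rw [add_comm, h2]
      push_cast at this
      rw [this]; simp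
    have h2 : ((iv (p + 1) : ℕ) : ZMod l) = ((iv p + 1 : ℕ) : ZMod l) := by
      have e1 := hiv1 (p + 1)
      have e2 := hiv1 p
      push_cast
      calc ((iv (p + 1) : ℕ) : ZMod l) = (1 + (iv (p + 1) : ℕ)) - 1 := by ring
        _ = _ := by rw [e1]; nth_rewrite 1 [← e2]; ring
    have h3 := congrArg ZMod.val h2
    rwa [ZMod.val_natCast_of_lt (hivl _), ZMod.val_natCast_of_lt h1] at h3
  have hiv01 : iv (0 + 1) = 0 := by
    rw [hiv]; simp
  have hlc : ((l : ℕ) : ZMod l) = 0 := ZMod.natCast_self l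
  have hl1 : ((l - 1 : ℕ) : ZMod l) = -1 := by
    rw [Nat.cast_sub (by omega), hlc]; simp
  -- the column of index `l`
  have hC : ∀ j, tp V2 V3 l j = tp V2 V3 l 0 * tp V2 V3 0 j := by
    intro j
    simp [tp, col, row]
  -- rows
  have hB : ∀ i j : ℕ, j ≤ l - 1 → tp V2 V3 i j * V2 (1 + i) (1 + j) = tp V2 V3 (i + 1) j := by
    intro i j hj
    refine tp_flat hF i j fun t ht h => ?_
    have h2 : ((1 + t : ℕ) : ZMod l) = 0 := by push_cast; exact h.2
    rw [ZMod.natCast_eq_zero_iff] at h2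
    have := Nat.le_of_dvd (by omega) h2
    omega
  have hB' : ∀ i j : ℕ, i < l - 1 → tp V2 V3 i j * V2 (1 + i) (1 + j) = tp V2 V3 (i + 1) j := by
    intro i j hi
    refine tp_flat hF i j fun t ht h => ?_
    have h2 : ((1 + i : ℕ) : ZMod l) = 0 := by push_cast; exact h.1
    rw [ZMod.natCast_eq_zero_iff] at h2
    have := Nat.le_of_dvd (by omega) h2
    omega
  have hQ : ∀ i : ℕ, i ≤ l - 1 → tp V2 V3 i l = tp V2 V3 0 l * tp V2 V3 i 0 := by
    intro i hi
    induction i with
    | zero => rw [tp_zero, mul_one]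
    | succ i ih =>
      rw [← hB' i l (by omega), ih (by omega), tp_row, hlc, add_zero, mul_assoc]
  obtain ⟨P, hP⟩ : ∃ P, P = tp V2 V3 l 0 := ⟨_, rfl⟩
  obtain ⟨Q, hQd⟩ : ∃ Q, Q = tp V2 V3 0 l := ⟨_, rfl⟩
  have hll : l = (l - 1) + 1 := by omega
  have hcomm : Q * P = w * (P * Q) := by
    have e1 : tp V2 V3 (l - 1) l = tp V2 V3 (l - 1) (l - 1) * V3 0 0 := by
      have e0 := tp_succ V2 V3 (l - 1) (l - 1)
      rw [← hll, hl1] at e0
      simpa using e0
    have e2 : tp V2 V3 l 0 = tp V2 V3 (l - 1) 0 * V2 0 1 := by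
      have e0 := tp_row V2 V3 (l - 1)
      rw [← hll, hl1] at e0
      simpa using e0
    have e3 : tp V2 V3 l (l - 1) = tp V2 V3 (l - 1) (l - 1) * V2 0 0 := by
      have := hB (l - 1) (l - 1) le_rfl
      rw [← hll, hl1] at this
      simp only [add_neg_cancel] at this
      exact this.symm
    have e4 : tp V2 V3 l l = tp V2 V3 l (l - 1) * V3 1 0 := by
      have e0 := tp_succ V2 V3 l (l - 1)
      rw [← hll, hl1, hlc] at e0
      simpa using e0
    have e5 := hF 0 0
    simp only [zero_add, and_self, if_true] at e5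
    have e6 := hQ (l - 1) le_rfl
    calc Q * P = tp V2 V3 0 l * tp V2 V3 (l - 1) 0 * V2 0 1 := by rw [hQd, hP, e2, mul_assoc]
      _ = tp V2 V3 (l - 1) (l - 1) * (V3 0 0 * V2 0 1) := by rw [← e6, e1, mul_assoc]
      _ = w * (tp V2 V3 (l - 1) (l - 1) * V2 0 0 * V3 1 0) := by
          rw [e5, ← mul_assoc, ← hw, mul_assoc, mul_assoc]
      _ = w * tp V2 V3 l l := by rw [← e3, ← e4]
      _ = w * (P * Q) := by rw [hC l, hP, hQd]
  refine ⟨fun p q => (tp V2 V3 (iv p) (iv q))⁻¹, P, Q, hcomm, fun p q => ?_, fun p q => ?_⟩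
  · beta_reduce
    have h1 := hB (iv p) (iv q) (by have := hivl q; omega)
    rw [hiv1, hiv1] at h1
    by_cases hp : p = 0
    · subst hp
      rw [if_pos rfl, hiv01, inv_inv]
      have h2 : iv 0 + 1 = l := by rw [hiv0]; omega
      rw [h2, hC, ← hP] at h1
      rw [mul_assoc, eq_inv_mul_iff_mul_eq]
      exact h1
    · rw [if_neg hp, mul_one, hivs p hp, inv_inv, eq_inv_mul_iff_mul_eq]
      exact h1
  · beta_reduce
    by_cases hq : q = 0
    · subst hq
      rw [if_pos rfl, hiv01, inv_inv, mul_assoc, eq_inv_mul_iff_mul_eq]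
      have h1 := tp_succ V2 V3 (iv p) (iv 0)
      rw [hiv1, hiv1] at h1
      have h2 : iv 0 + 1 = l := by rw [hiv0]; omega
      rw [h2, hQ _ (by have := hivl p; omega), ← hQd] at h1
      exact h1.symm
    · rw [if_neg hq, mul_one, hivs q hq, inv_inv, eq_inv_mul_iff_mul_eq]
      have h1 := tp_succ V2 V3 (iv p) (iv q)
      rw [hiv1, hiv1] at h1
      exact h1.symm

end fibre

end

end Run7.h630.VS
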