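import Mathlib
import Pool.Agent.Run7.h630.VS.Flat
import Pool.Agent.Run7.h4.VS.Lim

/-!
# Inserting a vortex into an almost flat block
-/

open Matrix MeasureTheory
open Run7.h4.YM Run7.h4.VS

namespace Run7.h630.VS

set_option linter.unusedSectionVars false
set_option synthInstance.maxSize 1000

noncomputable section

variable {N l : ℕ} [NeZero N] [NeZero l] {k : ℕ} {hζ : IsPrimitiveRoot (om N k) N}
  {P0 Q0 : SU N}

theorem VL_flat (hζ : IsPrimitiveRoot (om N k) N) {s : FC N l} (h : VL k s = 0) (y : Fib l) :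
    s.2 y * s.1 (y + (0, 1)) = tz hζ y * (s.1 y * s.2 (y + (1, 0))) := by
  unfold VL at h
  rw [Finset.sum_eq_zero_iff_of_nonneg (fun y _ => aw_twf_nonneg hζ y _)] at h
  have h1 := h y (Finset.mem_univ y)
  rw [aw_twf hζ] at h1
  have h2 := aw_one_zero h1
  rw [← mul_assoc, mul_inv_eq_one, ← mul_assoc, mul_inv_eq_iff_eq_mul] at h2
  exact h2.symm

theorem KL_flat {s s' : FC N l} {u : Fib l → SU N} (h : KL s u s' = 0) : s' = gF u s := by
  unfold KL at h
  rw [Finset.sum_eq_zero_iff_of_nonneg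
    (fun y _ => add_nonneg (aw_one_nonneg _) (aw_one_nonneg _))] at h
  unfold gF
  refine Prod.ext ?_ ?_
  · funext y
    have h2 := h y (Finset.mem_univ y)
    have h3 := aw_one_nonneg (u y * s'.1 y * (u (y + (1, 0)))⁻¹ * (s.1 y)⁻¹)
    have h4 := aw_one_nonneg (u y * s'.2 y * (u (y + (0, 1)))⁻¹ * (s.2 y)⁻¹)
    have h5 := aw_one_zero (by linarith : aw 1 (u y * s'.1 y * (u (y + (1, 0)))⁻¹ * (s.1 y)⁻¹) = 0)
    have h6 := mul_inv_eq_one.mp h5
    show s'.1 y = (u y)⁻¹ * s.1 y * u (y + (1, 0))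
    rw [← h6]; group
  · funext y
    have h2 := h y (Finset.mem_univ y)
    have h3 := aw_one_nonneg (u y * s'.1 y * (u (y + (1, 0)))⁻¹ * (s.1 y)⁻¹)
    have h4 := aw_one_nonneg (u y * s'.2 y * (u (y + (0, 1)))⁻¹ * (s.2 y)⁻¹)
    have h5 := aw_one_zero (by linarith : aw 1 (u y * s'.2 y * (u (y + (0, 1)))⁻¹ * (s.2 y)⁻¹) = 0)
    have h6 := mul_inv_eq_one.mp h5
    show s'.2 y = (u y)⁻¹ * s.2 y * u (y + (0, 1))
    rw [← h6]; group

theorem gF_gF (γ γ' : Fib l → SU N) (s : FC N l) :
    gF γ' (gF γ s) = gF (fun y => γ y * γ' y) s := by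
  unfold gF
  refine Prod.ext ?_ ?_
  · funext y
    simp only
    group
  · funext y
    simp only
    group

/-- a flat fibre is a gauge transform of the standard one -/
theorem fib_std (hS : Std N k hζ P0 Q0) {s : FC N l} (h : VL k s = 0) :
    ∃ γ : Fib l → SU N, s = gF γ (vacF P0 Q0) := by
  obtain ⟨g, P, Q, hQP, h1, h2⟩ := fibre_flat (G := SU N) (l := l)
    (V2 := fun p q => s.1 (p, q)) (V3 := fun p q => s.2 (p, q)) (w := cz hζ 1)
    (fun g => cz_comm hζ 1 g) (by
      intro p q
      have h3 := VL_flat hζ h (p, q)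
      simp only [Prod.mk_add_mk, add_zero] at h3
      rw [h3]
      unfold tz
      have e : ((p, q) : Fib l) = 0 ↔ (p = 0 ∧ q = 0) := Prod.mk_eq_zero
      simp only [e])
  have h3 : (Q * P).1 = om N k • (P * Q).1 := by
    rw [hQP, coe_mul' (cz hζ 1), cz_val, pow_one, smul_mul_assoc, one_mul]
  obtain ⟨r, hr1, hr2⟩ := hS.uni P Q h3
  refine ⟨fun y => (g y.1 y.2 * r)⁻¹, ?_⟩
  unfold gF vacF
  refine Prod.ext ?_ ?_
  · funext y
    obtain ⟨p, q⟩ := y
    have h4 := h1 p q
    simp only [Prod.mk_add_mk, add_zero] at h4 ⊢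
    rw [h4]
    by_cases hp : p = 0
    · rw [if_pos hp, if_pos hp, hr1]; group
    · rw [if_neg hp, if_neg hp]; group
  · funext y
    obtain ⟨p, q⟩ := y
    have h4 := h2 p q
    simp only [Prod.mk_add_mk, add_zero] at h4 ⊢
    rw [h4]
    by_cases hq : q = 0
    · rw [if_pos hq, if_pos hq, hr2]; group
    · rw [if_neg hq, if_neg hq]; group

/-- a flat block is a gauge transform of the vacuum -/
theorem block_flat (hS : Std N k hζ P0 Q0) {a b : ℕ} (ha : 1 ≤ a) (hb : 1 ≤ b) {u : LC N l}
    (h : ∀ t, t < a → ∀ x, x < b → cN k 0 u t x = 0) :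
    ∃ γ : ℕ → ℕ → Fib l → SU N,
      (∀ t, t ≤ a → ∀ x, x ≤ b → fsN u t x = gF (γ t x) (vacF P0 Q0)) ∧
      (∀ t, t < a → ∀ x, x ≤ b → ∀ y, u 0 t x y = (γ t x y)⁻¹ * γ (t + 1) x y) ∧
      (∀ t, t ≤ a → ∀ x, x < b → ∀ y, u 1 t x y = (γ t x y)⁻¹ * γ t (x + 1) y) := by
  have hc := fun t (ht : t < a) x (hx : x < b) => cN_parts hζ 0 u t x (le_of_eq (h t ht x hx))
  simp only [mul_zero] at hc
  have hV0 : VL k (fsN u 0 0) = 0 := le_antisymm (hc 0 ha 0 hb).1 (VL_nonneg hζ _)
  obtain ⟨γ0, hγ0⟩ := fib_std hS hV0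
  obtain ⟨γ, hγ⟩ : ∃ γ : ℕ → ℕ → Fib l → SU N, γ = fun t x y =>
      γ0 y * hp (fun s => u 0 s 0 y) t * hp (fun r => u 1 t r y) x := ⟨_, rfl⟩
  have h00 : γ 0 0 = γ0 := by rw [hγ]; funext y; simp
  have hup : ∀ t x y, γ t (x + 1) y = γ t x y * u 1 t x y := by
    intro t x y
    rw [hγ]
    simp only
    rw [hp_succ, ← mul_assoc]
  have hrow : ∀ t y, γ (t + 1) 0 y = γ t 0 y * u 0 t 0 y := by
    intro t y
    rw [hγ]
    simp only
    rw [hp_succ, hp_zero, hp_zero, mul_one, mul_one, mul_assoc]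
  have hside : ∀ t, t < a → ∀ x, x ≤ b → ∀ y, γ (t + 1) x y = γ t x y * u 0 t x y := by
    intro t ht x
    induction x with
    | zero => intro _ y; exact hrow t y
    | succ x ih =>
      intro hx y
      have h1 := (hc t ht x (by omega)).2.2.2.2.2.2.2.2 y
      rw [aw_om hζ, cz_zero, one_mul] at h1
      have h2 := aw_one_zero (le_antisymm h1 (aw_one_nonneg _))
      rw [mul_inv_eq_one, mul_inv_eq_iff_eq_mul] at h2
      rw [hup, hup, ih (by omega) y, mul_assoc, mul_assoc, h2]
  have hfr : ∀ t, t ≤ a → fsN u t 0 = gF (γ t 0) (vacF P0 Q0) := by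
    intro t
    induction t with
    | zero => intro _; rw [h00]; exact hγ0
    | succ t ih =>
      intro ht
      have h1 := (hc t (by omega) 0 hb).2.2.2.2.1
      have h2 := KL_flat (le_antisymm h1 (KL_nonneg _ _ _))
      rw [h2, ih (by omega), gF_gF]
      congr 1
      funext y
      exact (hrow t y).symm
  have hf : ∀ t, t ≤ a → ∀ x, x ≤ b → fsN u t x = gF (γ t x) (vacF P0 Q0) := by
    intro t ht x
    induction x with
    | zero => intro _; exact hfr t ht
    | succ x ih =>
      intro hx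
      have h1 : KL (fsN u t x) (u 1 t x) (fsN u t (x + 1)) ≤ 0 := by
        rcases Nat.lt_or_ge t a with h2 | h2
        · exact (hc t h2 x (by omega)).2.2.2.2.2.2.1
        · have h3 : t = (a - 1) + 1 := by omega
          rw [h3]
          exact (hc (a - 1) (by omega) x (by omega)).2.2.2.2.2.2.2.1
      have h2 := KL_flat (le_antisymm h1 (KL_nonneg _ _ _))
      rw [h2, ih (by omega), gF_gF]
      congr 1
      funext y
      exact (hup t x y).symm
  refine ⟨γ, hf, fun t ht x hx y => ?_, fun t ht x hx y => ?_⟩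
  · rw [hside t ht x hx y]; group
  · rw [hup]; group

/-! ### continuity -/

theorem cont_fsN (t x : ℕ) : Continuous (fun u : LC N l => fsN u t x) := by
  unfold fsN
  refine Continuous.prodMk ?_ ?_
  · exact (continuous_apply x).comp ((continuous_apply t).comp (continuous_apply 2))
  · exact (continuous_apply x).comp ((continuous_apply t).comp (continuous_apply 3))

theorem cont_lk (i : Fin 4) (t x : ℕ) : Continuous (fun u : LC N l => u i t x) :=
  (continuous_apply x).comp ((continuous_apply t).comp (continuous_apply i))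

theorem cont_lky (i : Fin 4) (t x : ℕ) (y : Fib l) : Continuous (fun u : LC N l => u i t x y) :=
  (continuous_apply y).comp (cont_lk i t x)

theorem cont_cN (m t x : ℕ) : Continuous (fun u : LC N l => cN k m u t x) := by
  have hV : ∀ t x, Continuous (fun u : LC N l => VL k (fsN u t x)) := fun t x => by
    unfold VL fsN
    exact continuous_finsetSum _ fun y _ => cont_aw4 _ (cont_lky 2 _ _ _) (cont_lky 3 _ _ _)
      (cont_lky 2 _ _ _) (cont_lky 3 _ _ _)
  have hK : ∀ (i : Fin 4) (t x t' x' : ℕ), Continuous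
      (fun u : LC N l => KL (fsN u t x) (u i t x) (fsN u t' x')) := fun i t x t' x' => by
    unfold KL fsN
    exact continuous_finsetSum _ fun y _ =>
      (cont_aw4 _ (cont_lky i _ _ _) (cont_lky 2 _ _ _) (cont_lky i _ _ _) (cont_lky 2 _ _ _)).add
      (cont_aw4 _ (cont_lky i _ _ _) (cont_lky 3 _ _ _) (cont_lky i _ _ _) (cont_lky 3 _ _ _))
  have hW : Continuous (fun u : LC N l => ∑ y : Fib l, aw (om N k ^ m)
      (u 0 t x y * u 1 (t + 1) x y * (u 0 t (x + 1) y)⁻¹ * (u 1 t x y)⁻¹)) :=
    continuous_finsetSum _ fun y _ => cont_aw4 _ (cont_lky 0 _ _ _) (cont_lky 1 _ _ _)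
      (cont_lky 0 _ _ _) (cont_lky 1 _ _ _)
  unfold cN
  exact (((((hV _ _).add (hV _ _)).add (hV _ _)).add (hV _ _)).div_const 4).add
    (((((hK 0 _ _ _ _).add (hK 0 _ _ _ _)).add (hK 1 _ _ _ _)).add (hK 1 _ _ _ _)).div_const 2)
    |>.add hW

theorem cont_EN (m : ℕ → ℕ → ℕ) (a b : ℕ) : Continuous (fun u : LC N l => EN k m a b u) := by
  unfold EN
  exact continuous_finsetSum _ fun t _ => continuous_finsetSum _ fun x _ => cont_cN _ _ _

open Classical in
/-- replacing the boundary line -/
def glu (a b : ℕ) (u w : LC N l) : LC N l := fun i t x =>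
  if i = 0 then (if x = 0 ∨ x = b then u 0 t x else w 0 t x) else
  if i = 1 then (if t = 0 ∨ t = a then u 1 t x else w 1 t x) else
  if bdy a b t x then u i t x else w i t x

theorem glu_0 (a b : ℕ) (u w : LC N l) (t x : ℕ) : glu a b u w 0 t x =
    if x = 0 ∨ x = b then u 0 t x else w 0 t x := by
  unfold glu
  simp

theorem glu_1 (a b : ℕ) (u w : LC N l) (t x : ℕ) : glu a b u w 1 t x =
    if t = 0 ∨ t = a then u 1 t x else w 1 t x := by
  unfold glu
  simp

open Classical in
theorem glu_f (a b : ℕ) (u w : LC N l) (t x : ℕ) : fsN (glu a b u w) t x =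
    if bdy a b t x then fsN u t x else fsN w t x := by
  unfold fsN glu
  by_cases h : bdy a b t x
  · simp [h]
  · simp [h]

theorem agree_glu (a b : ℕ) (u w : LC N l) : AgreeB a b u (glu a b u w) where
  fib t x h := by rw [glu_f, if_pos h]
  l0 t _ := by rw [glu_0, glu_0]; simp
  l1 x _ := by rw [glu_1, glu_1]; simp

theorem cont_glu (a b : ℕ) (w : LC N l) : Continuous (fun u : LC N l => glu a b u w) := by
  refine continuous_pi fun i => continuous_pi fun t => continuous_pi fun x => ?_
  unfold glu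
  split_ifs
  · exact cont_lk 0 t x
  · exact continuous_const
  · exact cont_lk 1 t x
  · exact continuous_const
  · exact cont_lk i t x
  · exact continuous_const

theorem glu_self {a b : ℕ} {u w : LC N l} (h : AgreeB a b u w) (m : ℕ → ℕ → ℕ) :
    EN k m a b (glu a b u w) = EN k m a b w := by
  unfold EN
  refine Finset.sum_congr rfl fun t ht => Finset.sum_congr rfl fun x hx => ?_
  rw [Finset.mem_range] at ht hx
  have hf : ∀ t x, fsN (glu a b u w) t x = fsN w t x := by
    intro t x
    rw [glu_f]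
    split_ifs with hb
    · exact (h.fib t x hb).symm
    · rfl
  have h0 : ∀ x, glu a b u w 0 t x = w 0 t x := by
    intro x
    rw [glu_0]
    split_ifs with hb
    · rcases hb with hb | hb
      · rw [hb]; exact ((h.l0 t ht).1).symm
      · rw [hb]; exact ((h.l0 t ht).2).symm
    · rfl
  have h1 : ∀ t, glu a b u w 1 t x = w 1 t x := by
    intro t
    rw [glu_1]
    split_ifs with hb
    · rcases hb with hb | hb
      · rw [hb]; exact ((h.l1 x hx).1).symm
      · rw [hb]; exact ((h.l1 x hx).2).symm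
    · rfl
  exact cN_local (hf _ _) (hf _ _) (hf _ _) (hf _ _) (h0 _) (h0 _) (h1 _) (h1 _)

/-- INS. -/
theorem tINS : StINS := by
  intro N k l _ _ hζ P0 Q0 hS i a b v ha hb hv ε hε
  set f : LC N l → ℝ := fun u => ∑ t ∈ Finset.range a, ∑ x ∈ Finset.range b, cN k 0 u t x with hf
  have hfc : Continuous f :=
    continuous_finsetSum _ fun t _ => continuous_finsetSum _ fun x _ => cont_cN _ _ _
  have hf0 : ∀ u, 0 ≤ f u := fun u =>
    Finset.sum_nonneg fun t _ => Finset.sum_nonneg fun x _ => cN_nonneg hζ _ _ _ _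
  obtain ⟨δ, hδ, hsm⟩ := compact_small hfc hf0
    (W := {u : LC N l | ∃ w : LC N l, EN k (corner i) a b (glu a b u w) <
      EN k (corner i) a b v + ε}) (by
      have : {u : LC N l | ∃ w : LC N l, EN k (corner i) a b (glu a b u w) <
          EN k (corner i) a b v + ε} = ⋃ w : LC N l, {u | EN k (corner i) a b (glu a b u w) <
            EN k (corner i) a b v + ε} := by
        ext s; simp
      rw [this]
      refine isOpen_iUnion fun w => ?_
      exact isOpen_lt ((cont_EN (corner i) a b).comp (cont_glu a b w)) continuous_const) (by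
      intro u hu
      have h1 : ∀ t, t < a → ∀ x, x < b → cN k 0 u t x = 0 := by
        intro t ht x hx
        have h2 := (Finset.sum_eq_zero_iff_of_nonneg (fun t _ =>
          Finset.sum_nonneg fun x _ => cN_nonneg hζ 0 u t x)).mp hu t (Finset.mem_range.mpr ht)
        exact (Finset.sum_eq_zero_iff_of_nonneg (fun x _ => cN_nonneg hζ 0 u t x)).mp h2 x
          (Finset.mem_range.mpr hx)
      obtain ⟨γ, g1, g2, g3⟩ := block_flat hS ha hb h1
      refine ⟨gau γ v, ?_⟩
      have hag : AgreeB a b u (gau γ v) := by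
        refine ⟨fun t x hbd => ?_, fun t ht => ⟨?_, ?_⟩, fun x hx => ⟨?_, ?_⟩⟩
        · rw [gau_f, hv.fib t x hbd, g1 t hbd.1 x hbd.2.1]
        · funext y
          rw [gau_0, g2 t ht 0 (Nat.zero_le _) y]
          unfold gL
          rw [(hv.l0 t ht y).1, mul_one]
        · funext y
          rw [gau_0, g2 t ht b le_rfl y]
          unfold gL
          rw [(hv.l0 t ht y).2, mul_one]
        · funext y
          rw [gau_1, g3 0 (Nat.zero_le _) x hx y]
          unfold gL
          rw [(hv.l1 x hx y).1, mul_one]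
        · funext y
          rw [gau_1, g3 a le_rfl x hx y]
          unfold gL
          rw [(hv.l1 x hx y).2, mul_one]
      rw [glu_self hag]
      have : EN k (corner i) a b (gau γ v) = EN k (corner i) a b v := by
        unfold EN
        exact Finset.sum_congr rfl fun t _ => Finset.sum_congr rfl fun x _ => cN_gau _ _ _ _ _
      rw [this]
      linarith)
  have hab : (0 : ℝ) < a * b := by
    have h1 : (0 : ℝ) < a := by exact_mod_cast ha
    have h2 : (0 : ℝ) < b := by exact_mod_cast hb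
    positivity
  refine ⟨δ / (a * b), by positivity, fun u hu => ?_⟩
  have h1 : f u < δ := by
    have h2 : f u < ∑ t ∈ Finset.range a, ∑ x ∈ Finset.range b, δ / (a * b) := by
      refine Finset.sum_lt_sum_of_nonempty (Finset.nonempty_range_iff.mpr (by omega)) fun t ht => ?_
      refine Finset.sum_lt_sum_of_nonempty (Finset.nonempty_range_iff.mpr (by omega)) fun x hx => ?_
      exact hu t (Finset.mem_range.mp ht) x (Finset.mem_range.mp hx)
    refine lt_of_lt_of_eq h2 ?_
    rw [Finset.sum_const, Finset.sum_const, Finset.card_range, Finset.card_range, nsmul_eq_mul,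
      nsmul_eq_mul]
    field_simp
  obtain ⟨w, hw⟩ := hsm u h1
  exact ⟨glu a b u w, agree_glu a b u w, hw.le⟩

end

end Run7.h630.VS
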